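import Mathlib

/-! Gromov's polynomial growth theorem: definitions and block statements. -/

set_option autoImplicit false

open scoped Pointwise Classical

namespace Pool.Agent.Gromov

/-- polynomial growth of degree at most `d`, for every finite subset -/
def PG (G : Type*) [Group G] (d : ℕ) : Prop :=
  ∀ S : Finset G, ∃ C : ℕ, ∀ n : ℕ, (S ^ n).card ≤ C * (n + 1) ^ d

theorem PG.of_injective {G H : Type*} [Group G] [Group H] {d : ℕ} (h : PG G d) (f : H →* G)
    (hf : Function.Injective f) : PG H d := by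
  intro S
  obtain ⟨C, hC⟩ := h (S.image f)
  refine ⟨C, fun n => ?_⟩
  have := hC n
  rwa [← Finset.image_pow f, Finset.card_image_of_injective _ hf] at this

theorem PG.sub {G : Type*} [Group G] {d : ℕ} (h : PG G d) (H : Subgroup G) : PG H d :=
  h.of_injective H.subtype H.subtype_injective

theorem PG.of_surjective {G H : Type*} [Group G] [Group H] {d : ℕ} (h : PG G d) (f : G →* H)
    (hf : Function.Surjective f) : PG H d := by
  intro S
  obtain ⟨g, hg⟩ := hf.hasRightInverse
  obtain ⟨C, hC⟩ := h (S.image g)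
  refine ⟨C, fun n => le_trans ?_ (hC n)⟩
  have e : S = (S.image g).image f := by
    rw [Finset.image_image]
    have : f ∘ g = id := funext hg
    simp [this]
  calc (S ^ n).card = (((S.image g) ^ n).image f).card := by rw [Finset.image_pow f, ← e]
    _ ≤ _ := Finset.card_image_le

theorem PG.quot {G : Type*} [Group G] {d : ℕ} (h : PG G d) (N : Subgroup G) [N.Normal] :
    PG (G ⧸ N) d :=
  h.of_surjective (QuotientGroup.mk' N) (QuotientGroup.mk'_surjective N)

/-- Block U (Shalom, Tao): a finitely generated group of polynomial growth acting by linear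
isometries of a finite dimensional complex inner product space acts through a commutative group
on a subgroup of finite index. -/
def UnitS : Prop :=
  ∀ (d : ℕ) (G : Type) [Group G] [Group.FG G], PG G d →
    ∀ (V : Type) [NormedAddCommGroup V] [InnerProductSpace ℂ V] [FiniteDimensional ℂ V]
      (ρ : G →* (V ≃ₗᵢ[ℂ] V)),
      ∃ H : Subgroup G, H.FiniteIndex ∧ ∀ a ∈ H, ∀ b ∈ H, ρ a * ρ b = ρ b * ρ a

/-- Block M (Milnor): the kernel of a map onto the integers is finitely generated and its growth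
degree drops by one. -/
def MilS : Prop :=
  ∀ (d : ℕ) (G : Type) [Group G] [Group.FG G], PG G (d + 1) →
    ∀ φ : G →* Multiplicative ℤ, Function.Surjective φ → φ.ker.FG ∧ PG φ.ker d

/-- Block K (Kronecker): on a finitely generated commutative normal subgroup `Z` a power of every
element acts unipotently. -/
def KronS : Prop :=
  ∀ (d : ℕ) (G : Type) [Group G], PG G d → ∀ (Z : Subgroup G) [Z.Normal], Z.FG →
    (∀ a ∈ Z, ∀ b ∈ Z, a * b = b * a) → ∀ t : G,
      ∃ k r : ℕ, 0 < k ∧ ∀ z ∈ Z, (fun x => t ^ k * x * (t ^ k)⁻¹ * x⁻¹)^[r] z = 1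

/-- Block N: nilpotent-by-cyclic groups of polynomial growth with the maximal condition are
virtually nilpotent. -/
def NilS : Prop :=
  ∀ (d : ℕ) (G : Type) [Group G], PG G d → (∀ K : Subgroup G, K.FG) →
    ∀ (N : Subgroup G) [N.Normal], Group.IsNilpotent N → ∀ t : G,
      ∃ k : ℕ, 0 < k ∧ Group.IsNilpotent ↥(N ⊔ Subgroup.zpowers (t ^ k))

/-- Block H (Kleiner, Ozawa): an infinite finitely generated group of polynomial growth has a
subgroup of finite index that maps onto the integers. -/
def HomS : Prop :=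
  ∀ (d : ℕ) (G : Type) [Group G] [Group.FG G] [Infinite G], PG G d →
    ∃ H : Subgroup G, H.FiniteIndex ∧ ∃ φ : H →* Multiplicative ℤ, Function.Surjective φ

/-- Gromov's theorem -/
def GromovS : Prop :=
  ∀ (d : ℕ) (G : Type) [Group G] [Group.FG G], PG G d →
    ∃ H : Subgroup G, H.FiniteIndex ∧ Group.IsNilpotent H

/-- growth bound for one generating set gives `PG` -/
def GenS : Prop :=
  ∀ (d : ℕ) (G : Type) [Group G] (S : Finset G), Subgroup.closure (S : Set G) = ⊤ →
    (∃ C : ℕ, ∀ n : ℕ, ((insert 1 (S ∪ S⁻¹)) ^ n).card ≤ C * (n + 1) ^ d) → PG G d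

section Harmonic
variable {G : Type} [Group G]

/-- symmetric generating set containing the identity -/
def Gen (S : Finset G) : Prop :=
  (1 : G) ∈ S ∧ (∀ s ∈ S, s⁻¹ ∈ S) ∧ Subgroup.closure (S : Set G) = ⊤

def Harm (S : Finset G) (u : G → ℂ) : Prop := ∀ x, ∑ s ∈ S, u (x * s) = (S.card : ℂ) * u x

def Lip (S : Finset G) (u : G → ℂ) : Prop := ∃ L : ℝ, ∀ x, ∀ s ∈ S, ‖u (x * s) - u x‖ ≤ L

def Bdd (F : G → ℂ) : Prop := ∃ M : ℝ, ∀ x, ‖F x‖ ≤ M

/-- the energy density -/
noncomputable def Gam (S : Finset G) (u v : G → ℂ) (x : G) : ℂ :=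
  (S.card : ℂ)⁻¹ * ∑ s ∈ S, star (u (x * s) - u x) * (v (x * s) - v x)

/-- a left invariant mean on bounded functions whose energy controls gradients of Lipschitz
harmonic functions, together with the Liouville property -/
structure Mean (S : Finset G) (Λ : (G → ℂ) → ℂ) (K : ℝ) : Prop where
  add : ∀ F F', Bdd F → Bdd F' → Λ (F + F') = Λ F + Λ F'
  smul : ∀ (c : ℂ) F, Bdd F → Λ (c • F) = c * Λ F
  conj : ∀ F, Bdd F → Λ (star F) = star (Λ F)
  le : ∀ F (M : ℝ), Bdd F → (∀ x, (F x).re ≤ M) → (Λ F).re ≤ M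
  inv : ∀ F g, Bdd F → Λ (fun x => F (g * x)) = Λ F
  low : ∀ u, Harm S u → Lip S u → ∀ t ∈ S, ‖u t - u 1‖ ^ 2 ≤ K * (Λ (Gam S u u)).re
  liou : ∀ u, Harm S u → Bdd u → ∀ x, u x = u 1

end Harmonic

/-- Block A: the entropy mean -/
def MeanS : Prop :=
  ∀ (d : ℕ) (G : Type) [Group G] (S : Finset G), Gen S → PG G d → ∃ Λ K, Mean S Λ K

/-- Block E: a nonconstant Lipschitz harmonic function -/
def ExS : Prop :=
  ∀ (d : ℕ) (G : Type) [Group G] [Infinite G] (S : Finset G), Gen S → PG G d →
    ∃ u : G → ℂ, Harm S u ∧ Lip S u ∧ ∃ x, u x ≠ u 1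

/-- Block R: a finite dimensional unitary representation whose kernel is either of infinite index
or carries a nontrivial additive character -/
def RepS : Prop :=
  ∀ (d : ℕ) (G : Type) [Group G] [Group.FG G] [Infinite G], PG G d →
    ∃ (V : Type) (_ : NormedAddCommGroup V) (_ : InnerProductSpace ℂ V)
      (_ : FiniteDimensional ℂ V) (ρ : G →* (V ≃ₗᵢ[ℂ] V)),
      ρ.ker.FiniteIndex → ∃ χ : ρ.ker →* Multiplicative ℂ, χ ≠ 1

end Pool.Agent.Gromov
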