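import Pool.Agent.Lib.Gromov.Defs

/-! Kronecker's theorem for groups of polynomial growth. -/

set_option autoImplicit false

open scoped Pointwise Classical
open Polynomial

namespace Pool.Agent.Gromov

/-- The polynomial with the digits `l`, in Horner form. -/
def kronH {R : Type*} [Ring R] (x : R) : List Bool → R
  | [] => 0
  | e :: l => cond e 1 0 + x * kronH x l

theorem kron_map {R R' F : Type*} [Ring R] [Ring R'] [FunLike F R R'] [RingHomClass F R R']
    (φ : F) (x : R) (l : List Bool) : φ (kronH x l) = kronH (φ x) l := by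
  induction l with
  | nil => simp [kronH]
  | cons e l ih => cases e <;> simp [kronH, ih]

theorem kron_sep {z : ℂ} (hz : 2 ≤ ‖z‖) (l : List Bool) : ∀ l' : List Bool,
    l.length = l'.length → l ≠ l' → 1 ≤ ‖kronH z l - kronH z l'‖ := by
  induction l with
  | nil =>
    intro l' h1 h2
    exact absurd (List.length_eq_zero_iff.1 h1.symm).symm h2
  | cons e l ih =>
    intro l' h1 h2
    obtain _ | ⟨e', l'⟩ := l'
    · simp at h1
    by_cases h3 : l = l'
    · subst h3
      cases e <;> cases e' <;> simp_all [kronH]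
    have h4 := ih l' (by simpa using h1) h3
    have h5 : ‖(cond e 1 0 : ℂ) - cond e' 1 0‖ ≤ 1 := by cases e <;> cases e' <;> simp
    have h6 : z * (kronH z l - kronH z l') =
        (kronH z (e :: l) - kronH z (e' :: l')) - ((cond e 1 0 : ℂ) - cond e' 1 0) := by
      simp only [kronH]
      ring
    have h7 := norm_sub_le (kronH z (e :: l) - kronH z (e' :: l')) ((cond e 1 0 : ℂ) - cond e' 1 0)
    rw [← h6, norm_mul] at h7
    nlinarith

theorem kron_deg {f : ℤ[X]} (hf : Irreducible f) (hl : IsUnit f.leadingCoeff) :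
    f.natDegree ≠ 0 := by
  intro h
  apply hf.not_isUnit
  rw [eq_C_of_natDegree_eq_zero h, isUnit_C]
  rwa [leadingCoeff, h] at hl

theorem kron_bez {f q : ℤ[X]} (hf : Irreducible f) (hl : IsUnit f.leadingCoeff) (h : ¬ f ∣ q) :
    ∃ (u v : ℤ[X]) (n : ℤ), n ≠ 0 ∧ f * u + q * v = C n := by
  have h0 := kron_deg hf hl
  have hp := hf.isPrimitive h0
  have h1 := (IsPrimitive.Int.irreducible_iff_irreducible_map_cast hp).1 hf
  have h2 := (h1.isCoprime_or_dvd (q.map (Int.castRingHom ℚ))).resolve_right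
    fun e => h ((IsPrimitive.Int.dvd_iff_map_cast_dvd_map_cast f q hp).2 e)
  have h3 := resultant_ne_zero _ _ h2
  have hi := (Int.castRingHom ℚ).injective_int
  rw [natDegree_map_eq_of_injective hi, natDegree_map_eq_of_injective hi, resultant_map_map] at h3
  obtain ⟨u, v, -, -, e⟩ := exists_mul_add_mul_eq_C_resultant f q le_rfl le_rfl (Or.inl h0)
  exact ⟨u, v, _, fun e0 => h3 (by rw [e0, map_zero]), e⟩

section Mod

variable {A : Type*} [AddCommGroup A] {α : Module.End ℤ A}

theorem kron_tor (φ : Module.End ℤ A) {y : A} (hy : y ∈ Submodule.torsion ℤ A) :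
    φ y ∈ Submodule.torsion ℤ A := by
  obtain ⟨n, hn⟩ := hy
  exact ⟨n, by rw [Submonoid.smul_def] at hn ⊢; rw [← map_smul, hn, map_zero]⟩

theorem kron_dvd {P Q : ℤ[X]} (h : P ∣ Q) {a : A} (ha : aeval α P a ∈ Submodule.torsion ℤ A) :
    aeval α Q a ∈ Submodule.torsion ℤ A := by
  obtain ⟨g, rfl⟩ := h
  rw [mul_comm, map_mul, Module.End.mul_apply]
  exact kron_tor _ ha

theorem kron_ann {f q : ℤ[X]} (hf : Irreducible f) (hl : IsUnit f.leadingCoeff) {b : A}
    (hb : b ∉ Submodule.torsion ℤ A) (h1 : aeval α f b ∈ Submodule.torsion ℤ A)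
    (h2 : aeval α q b ∈ Submodule.torsion ℤ A) : f ∣ q := by
  by_contra h
  obtain ⟨u, v, n, hn, e⟩ := kron_bez hf hl h
  have h3 := add_mem (kron_dvd (dvd_mul_right f u) h1) (kron_dvd (dvd_mul_right q v) h2)
  rw [← LinearMap.add_apply, ← map_add, e, aeval_C, Module.algebraMap_end_apply] at h3
  obtain ⟨m, hm⟩ := h3
  refine hb ⟨m * ⟨n, mem_nonZeroDivisors_of_ne_zero hn⟩, ?_⟩
  rw [mul_smul]
  exact hm

theorem kron_root {f q : ℤ[X]} (hf : Irreducible f) (hl : IsUnit f.leadingCoeff) {z : ℂ}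
    (h1 : aeval z f = 0) (h2 : aeval z q = 0) : f ∣ q := by
  by_contra h
  obtain ⟨u, v, n, hn, e⟩ := kron_bez hf hl h
  have h3 := congrArg (aeval z) e
  simp only [map_add, map_mul, h1, h2, zero_mul, add_zero, aeval_C] at h3
  exact hn (by simpa using h3.symm)

theorem kron_cyc (hi : Function.Injective α)
    (H : ∀ (b : A) (p : ℕ), ∃ l l' : List Bool, l.length = l'.length ∧ l ≠ l' ∧
      kronH (α ^ p) l b = kronH (α ^ p) l' b)
    {f : ℤ[X]} (hf : Irreducible f) (hl : IsUnit f.leadingCoeff) {b : A}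
    (hb : b ∉ Submodule.torsion ℤ A) (h1 : aeval α f b ∈ Submodule.torsion ℤ A) :
    ∃ k, 0 < k ∧ f ∣ X ^ k - 1 := by
  have hc := (Int.castRingHom ℂ).injective_int
  have hr : ∀ z : ℂ, aeval z f = 0 → ‖z‖ ≤ 1 := by
    intro z hz
    by_contra hlt
    obtain ⟨p, hp⟩ := pow_unbounded_of_one_lt (2 : ℝ) (not_le.1 hlt)
    obtain ⟨l, l', a1, a2, a3⟩ := H b p
    obtain ⟨g, hg⟩ : f ∣ kronH (X ^ p) l - kronH (X ^ p) l' := by
      refine kron_ann hf hl hb h1 ?_
      rw [map_sub, kron_map, kron_map, map_pow, aeval_X, LinearMap.sub_apply, a3, sub_self]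
      exact zero_mem _
    have a4 := congrArg (aeval z) hg
    rw [map_sub, kron_map, kron_map, map_pow, aeval_X, map_mul, hz, zero_mul] at a4
    have a5 := kron_sep (z := z ^ p) (by rw [norm_pow]; exact hp.le) l l' a1 a2
    rw [a4, norm_zero] at a5
    exact absurd a5 (by norm_num)
  have hm : (f.map (Int.castRingHom ℂ)).mahlerMeasure = 1 := by
    rw [mahlerMeasure_eq_leadingCoeff_mul_prod_roots, leadingCoeff_map_of_injective hc,
      Multiset.prod_eq_one, mul_one]
    · rcases Int.isUnit_iff.1 hl with e | e <;> simp [e]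
    · intro x hx
      obtain ⟨z, hz, rfl⟩ := Multiset.mem_map.1 hx
      exact max_eq_left (hr z (mem_aroots.1 hz).2)
  obtain ⟨z, hz⟩ := IsAlgClosed.exists_aeval_eq_zero_of_injective ℂ hc f
    (natDegree_pos_iff_degree_pos.1 (Nat.pos_of_ne_zero (kron_deg hf hl))).ne'
  have hz0 : z ≠ 0 := by
    rintro rfl
    have h2 := kron_dvd (kron_root (q := X) hf hl hz (by simp)) h1
    rw [aeval_X] at h2
    obtain ⟨n, hn⟩ := h2
    refine hb ⟨n, hi ?_⟩
    rw [Submonoid.smul_def] at hn ⊢
    rw [map_smul, hn, map_zero]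
  obtain ⟨k, hk, e⟩ := pow_eq_one_of_mahlerMeasure_eq_one hm hz0 (mem_aroots.2 ⟨hf.ne_zero, hz⟩)
  exact ⟨k, hk, kron_root hf hl hz (by simp [e])⟩

theorem kron_pow_dvd (k n : ℕ) : (X ^ k - 1 : ℤ[X]) ∣ X ^ (k * n) - 1 := by
  rw [pow_mul]
  exact sub_one_dvd_pow_sub_one _ _

theorem kron_ind (hi : Function.Injective α)
    (H : ∀ (b : A) (p : ℕ), ∃ l l' : List Bool, l.length = l'.length ∧ l ≠ l' ∧
      kronH (α ^ p) l b = kronH (α ^ p) l' b) (P : ℤ[X]) : IsUnit P.leadingCoeff →
    ∃ k r : ℕ, 0 < k ∧ ∀ a, aeval α P a ∈ Submodule.torsion ℤ A →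
      aeval α ((X ^ k - 1 : ℤ[X]) ^ r) a ∈ Submodule.torsion ℤ A := by
  induction P using UniqueFactorizationMonoid.induction_on_prime with
  | h₁ => simp
  | h₂ P hP => exact fun _ => ⟨1, 0, one_pos, fun a ha => kron_dvd hP.dvd ha⟩
  | h₃ P f _ hf ih =>
    intro hl
    rw [leadingCoeff_mul, IsUnit.mul_iff] at hl
    obtain ⟨k, r, hk, h⟩ := ih hl.2
    by_cases hb : ∀ b, aeval α f b ∈ Submodule.torsion ℤ A → b ∈ Submodule.torsion ℤ A
    · exact ⟨k, r, hk, fun a ha => h a (hb _ (by rwa [map_mul] at ha))⟩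
    push Not at hb
    obtain ⟨b, h1, h2⟩ := hb
    obtain ⟨k', hk', e⟩ := kron_cyc hi H hf.irreducible hl.1 h2 h1
    refine ⟨k * k', r + 1, Nat.mul_pos hk hk', fun a ha => ?_⟩
    have h3 := kron_dvd (mul_dvd_mul_right e P) ha
    rw [mul_comm, map_mul, Module.End.mul_apply] at h3
    have h4 := h _ h3
    rw [← Module.End.mul_apply, ← map_mul] at h4
    refine kron_dvd ?_ h4
    rw [pow_succ]
    exact mul_dvd_mul (pow_dvd_pow_of_dvd (kron_pow_dvd k k') r)
      (by rw [mul_comm]; exact kron_pow_dvd k' k)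

theorem kron_mod [Module.Finite ℤ A] (hi : Function.Injective α)
    (H : ∀ (b : A) (p : ℕ), ∃ l l' : List Bool, l.length = l'.length ∧ l ≠ l' ∧
      kronH (α ^ p) l b = kronH (α ^ p) l' b) :
    ∃ k r : ℕ, 0 < k ∧ ∀ a, ((α ^ k - 1) ^ r) a = 0 := by
  obtain ⟨P, hP, e⟩ := LinearMap.exists_monic_and_aeval_eq_zero ℤ α
  obtain ⟨k, r, hk, h⟩ := kron_ind hi H P (by rw [hP.leadingCoeff]; exact isUnit_one)
  have : Finite (Submodule.torsion ℤ A) :=
    Module.finite_of_fg_torsion _ (Submodule.torsion_isTorsion)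
  let σ : Equiv.Perm (Submodule.torsion ℤ A) := Equiv.ofBijective
    (fun y => ⟨α y, kron_tor α y.2⟩) (Finite.injective_iff_bijective.1
      fun x y e => Subtype.ext (hi (congrArg Subtype.val e)))
  have hσ : ∀ (n : ℕ) y, ((σ ^ n) y : A) = (α ^ n) y := by
    intro n y
    induction n with
    | zero => rfl
    | succ n ih => rw [pow_succ', pow_succ', Module.End.mul_apply, ← ih]; rfl
  refine ⟨k * orderOf σ, r + 1, Nat.mul_pos hk (orderOf_pos σ), fun a => ?_⟩
  have h1 := kron_dvd (pow_dvd_pow_of_dvd (kron_pow_dvd k (orderOf σ)) r)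
    (h a (by rw [e]; exact zero_mem _))
  simp only [map_pow, map_sub, aeval_X, map_one] at h1
  have h2 := hσ (k * orderOf σ) ⟨_, h1⟩
  rw [show σ ^ (k * orderOf σ) = 1 by rw [mul_comm, pow_mul, pow_orderOf_eq_one, one_pow]] at h2
  rw [pow_succ', Module.End.mul_apply, LinearMap.sub_apply, ← h2]
  exact sub_self _

end Mod

theorem kron_grow (C d : ℕ) : ∃ m : ℕ, C * (3 * m + 1) ^ d < 2 ^ m := by
  have h := (isLittleO_pow_const_const_pow_of_one_lt (R := ℝ) d one_lt_two).def
    (c := 1 / (C * 4 ^ d + 1)) (by positivity)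
  obtain ⟨m, h1, h2⟩ := (h.and (Filter.eventually_ge_atTop 1)).exists
  refine ⟨m, ?_⟩
  have h3 : (1 : ℝ) ≤ m := by exact_mod_cast h2
  rw [Real.norm_of_nonneg (by positivity), Real.norm_of_nonneg (by positivity), one_div,
    ← div_eq_inv_mul, le_div_iff₀ (by positivity)] at h1
  have h4 : ((3 * m + 1 : ℝ)) ^ d ≤ 4 ^ d * m ^ d := by
    rw [← mul_pow]
    exact pow_le_pow_left₀ (by positivity) (by linarith) d
  have h5 : (0 : ℝ) < m ^ d := by positivity
  have h6 : (C : ℝ) * (3 * m + 1) ^ d < 2 ^ m := by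
    have := mul_le_mul_of_nonneg_left h4 (Nat.cast_nonneg C)
    nlinarith
  exact_mod_cast h6

theorem kronS : KronS := by
  intro d G _ hG Z _ hZ hc t
  let _ : CommGroup Z := { (inferInstance : Group Z) with
    mul_comm := fun a b => Subtype.ext (hc a a.2 b b.2) }
  have : Group.FG Z := (Group.fg_iff_subgroup_fg Z).2 hZ
  have : Module.Finite ℤ (Additive Z) := Module.Finite.iff_addGroup_fg.2 inferInstance
  let α : Module.End ℤ (Additive Z) :=
    (MonoidHom.toAdditive (MulAut.conjNormal t : MulAut Z).toMonoidHom).toIntLinearMap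
  let c : Additive Z → G := fun y => (Additive.toMul y : Z)
  have ci : Function.Injective c := fun x y e => Additive.toMul.injective (Subtype.ext e)
  have c0 : c 0 = 1 := rfl
  have ca : ∀ x y, c (x + y) = c x * c y := fun _ _ => rfl
  have cs : ∀ x y, c (x - y) = c x * (c y)⁻¹ := fun x y => by rw [sub_eq_add_neg]; rfl
  have c1 : ∀ y, c (α y) = t * c y * t⁻¹ := fun y => rfl
  have cp : ∀ (n : ℕ) y, c ((α ^ n) y) = t ^ n * c y * (t ^ n)⁻¹ := by
    intro n y
    induction n with
    | zero => simp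
    | succ n ih => rw [pow_succ', Module.End.mul_apply, c1, ih, pow_succ']; group
  obtain ⟨k, r, hk, h⟩ := kron_mod (α := α)
    (fun x y e => ci (by simpa [c1] using congrArg c e)) (by
      intro b p
      set S : Finset G := {1, c b, t ^ p, (t ^ p)⁻¹} with hS
      obtain ⟨C, hC⟩ := hG S
      obtain ⟨m, hm⟩ := kron_grow C d
      have hw : ∀ l : List Bool, c (kronH (α ^ p) l b) ∈ S ^ (3 * l.length) := by
        intro l
        induction l with
        | nil => simp [kronH, c0]
        | cons e l ih =>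
          rw [kronH, LinearMap.add_apply, Module.End.mul_apply, ca, cp, List.length_cons,
            show 3 * (l.length + 1) = 3 * l.length + 1 + 1 + 1 by ring, pow_succ', pow_succ,
            pow_succ']
          refine Finset.mul_mem_mul ?_ (Finset.mul_mem_mul (Finset.mul_mem_mul ?_ ih) ?_)
          · cases e <;> simp [hS, c0]
          · simp [hS]
          · simp [hS]
      obtain ⟨x, -, y, -, h1, h2⟩ := Finset.exists_ne_map_eq_of_card_lt_of_maps_to
        (s := (Finset.univ : Finset (List.Vector Bool m))) (t := S ^ (3 * m))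
        (f := fun v => c (kronH (α ^ p) v.1 b))
        (by simpa using (hC (3 * m)).trans_lt hm) (fun v _ => by
          have := hw v.1
          rw [v.2] at this
          exact Finset.mem_coe.2 this)
      exact ⟨x.1, y.1, x.2.trans y.2.symm, fun e => h1 (Subtype.ext e), ci h2⟩)
  refine ⟨k, r, hk, fun z hz => ?_⟩
  have key : ∀ (n : ℕ) y, c (((α ^ k - 1) ^ n) y) =
      (fun x => t ^ k * x * (t ^ k)⁻¹ * x⁻¹)^[n] (c y) := by
    intro n y
    induction n with
    | zero => rfl
    | succ n ih =>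
      rw [pow_succ', Module.End.mul_apply, LinearMap.sub_apply, cs, cp, Module.End.one_apply, ih,
        Function.iterate_succ_apply']
  have := key r (Additive.ofMul ⟨z, hz⟩)
  rw [h, c0] at this
  exact this.symm

end Pool.Agent.Gromov
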