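import Pool.Agent.Lib.Gromov.Defs

/-! Gromov's theorem from the three blocks, by induction on the degree of growth. -/

set_option autoImplicit false

open scoped Pointwise Classical

namespace Pool.Agent.Gromov

theorem main_fg_map {G Q : Type*} [Group G] [Group Q] (f : G →* Q) {K : Subgroup G} (h : K.FG) :
    (K.map f).FG := by
  obtain ⟨S, hS, hf⟩ := (Subgroup.fg_iff _).1 h
  exact (Subgroup.fg_iff _).2 ⟨f '' S, by rw [← hS, MonoidHom.map_closure], hf.image _⟩

theorem main_fg_ext {G Q : Type*} [Group G] [Group Q] (f : G →* Q) (K : Subgroup G)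
    (h1 : (K.map f).FG) (h2 : (K ⊓ f.ker).FG) : K.FG := by
  obtain ⟨S, hS, hSf⟩ := (Subgroup.fg_iff _).1 h1
  obtain ⟨U, hU, hUf⟩ := (Subgroup.fg_iff _).1 h2
  have hex : ∀ s : S, ∃ k ∈ K, f k = s := fun s => by
    have : (s : Q) ∈ K.map f := hS ▸ Subgroup.subset_closure s.2
    exact this
  choose g hgK hgf using hex
  have : Finite S := hSf
  refine (Subgroup.fg_iff _).2 ⟨Set.range g ∪ U, ?_, (Set.finite_range g).union hUf⟩
  apply le_antisymm
  · rw [Subgroup.closure_le]
    rintro x (⟨s, rfl⟩ | hx)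
    · exact hgK s
    · have : x ∈ K ⊓ f.ker := hU ▸ Subgroup.subset_closure hx
      exact this.1
  · intro k hk
    have hle : Subgroup.closure (Set.range g ∪ U) ≤ K := by
      rw [Subgroup.closure_le]
      rintro x (⟨s, rfl⟩ | hx)
      · exact hgK s
      · have : x ∈ K ⊓ f.ker := hU ▸ Subgroup.subset_closure hx
        exact this.1
    have h3 : K.map f ≤ (Subgroup.closure (Set.range g ∪ U)).map f := by
      rw [← hS, Subgroup.closure_le]
      intro s hs
      exact ⟨g ⟨s, hs⟩, Subgroup.subset_closure (Or.inl ⟨_, rfl⟩), hgf ⟨s, hs⟩⟩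
    obtain ⟨l, hl, hlk⟩ := h3 ⟨k, hk, rfl⟩
    have h4 : l⁻¹ * k ∈ K ⊓ f.ker := by
      refine ⟨K.mul_mem (K.inv_mem (hle hl)) hk, ?_⟩
      have : f (l⁻¹ * k) = 1 := by rw [map_mul, map_inv, hlk, inv_mul_cancel]
      exact this
    have h5 : l⁻¹ * k ∈ Subgroup.closure (Set.range g ∪ U) := by
      rw [← hU] at h4
      exact Subgroup.closure_mono Set.subset_union_right h4
    have := Subgroup.mul_mem _ hl h5
    rwa [mul_inv_cancel_left] at this

theorem main_fg_le {G : Type*} [Group G] (N : Subgroup G) (hN : ∀ K : Subgroup N, K.FG)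
    (K : Subgroup G) (hK : K ≤ N) : K.FG := by
  have := main_fg_map N.subtype (hN (K.subgroupOf N))
  rwa [Subgroup.map_subgroupOf_eq_of_le hK] at this

theorem main_noe_finite {G : Type*} [Group G] [Finite G] (K : Subgroup G) : K.FG :=
  (Group.fg_iff_subgroup_fg K).1 inferInstance

theorem main_noe_int (K : Subgroup (Multiplicative ℤ)) : K.FG := by
  obtain ⟨a, ha⟩ := Int.subgroup_cyclic K.toAddSubgroup'
  refine ⟨{Multiplicative.ofAdd a}, ?_⟩
  ext x
  have h1 : x ∈ K ↔ Multiplicative.toAdd x ∈ AddSubgroup.closure ({a} : Set ℤ) := by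
    rw [← ha]; rfl
  rw [h1, Finset.coe_singleton, Subgroup.mem_closure_singleton, AddSubgroup.mem_closure_singleton]
  rfl

theorem main_noe_over {G : Type*} [Group G] (H : Subgroup G) [H.FiniteIndex]
    (hH : ∀ K : Subgroup H, K.FG) (K : Subgroup G) : K.FG := by
  refine main_fg_ext (QuotientGroup.mk' H.normalCore) K (main_noe_finite _) ?_
  refine main_fg_le H hH _ (le_trans inf_le_right ?_)
  rw [QuotientGroup.ker_mk']
  exact H.normalCore_le

theorem main_not_pg {G : Type*} [Group G] (g : G)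
    (hg : Function.Injective fun j : ℕ => g ^ j) : ¬ PG G 0 := by
  intro h
  obtain ⟨C, hC⟩ := h {1, g}
  have h1 := hC C
  have h2 : (Finset.range (C + 1)).image (fun j : ℕ => g ^ j) ⊆ ({1, g} : Finset G) ^ C := by
    intro x hx
    obtain ⟨j, hj, rfl⟩ := Finset.mem_image.1 hx
    refine Finset.pow_subset_pow_right (by simp) (Nat.lt_succ_iff.1 (Finset.mem_range.1 hj)) ?_
    exact Finset.pow_mem_pow (by simp)
  have h3 := Finset.card_le_card h2
  rw [Finset.card_image_of_injective _ hg, Finset.card_range] at h3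
  simp only [pow_zero, mul_one] at h1
  omega

theorem main_not_pg_int : ¬ PG (Multiplicative ℤ) 0 := by
  refine main_not_pg (Multiplicative.ofAdd 1) fun i j hij => ?_
  have := congrArg Multiplicative.toAdd hij
  simpa using this

theorem main_hom_finite {G Q : Type*} [Group G] [Group Q] [Group.FG G] [Finite Q] :
    Finite (G →* Q) := by
  obtain ⟨S, hS, hf⟩ := Group.fg_iff.1 (inferInstance : Group.FG G)
  have : Finite S := hf
  refine Finite.of_injective (fun f : G →* Q => fun s : S => f s) ?_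
  intro f g hfg
  exact MonoidHom.eq_of_eqOn_dense hS fun s hs => congrFun hfg ⟨s, hs⟩

/-- a characteristic nilpotent subgroup of finite index -/
theorem main_char {G : Type*} [Group G] [Group.FG G] (M : Subgroup G) [M.FiniteIndex]
    (hM : Group.IsNilpotent M) :
    ∃ C : Subgroup G, C.Characteristic ∧ C.FiniteIndex ∧ Group.IsNilpotent C := by
  have : Finite (G →* G ⧸ M.normalCore) := main_hom_finite
  refine ⟨⨅ f : G →* G ⧸ M.normalCore, f.ker, ?_, ?_, ?_⟩
  · rw [Subgroup.characteristic_iff_le_comap]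
    intro α x hx
    rw [Subgroup.mem_comap, Subgroup.mem_iInf]
    intro f
    exact Subgroup.mem_iInf.1 hx (f.comp α.toMonoidHom)
  · exact Subgroup.finiteIndex_iInf fun f => inferInstance
  · have hle : (⨅ f : G →* G ⧸ M.normalCore, f.ker) ≤ M := by
      refine le_trans (iInf_le _ (QuotientGroup.mk' M.normalCore)) ?_
      rw [QuotientGroup.ker_mk']
      exact M.normalCore_le
    exact Group.nilpotent_of_mulEquiv (Subgroup.subgroupOfEquivOfLe hle)

theorem main_index {H : Type*} [Group H] (φ : H →* Multiplicative ℤ) (t : H)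
    (ht : φ t = Multiplicative.ofAdd 1) (C : Subgroup φ.ker) [C.FiniteIndex]
    [(C.map φ.ker.subtype).Normal] (k : ℕ) (hk : 0 < k) :
    (C.map φ.ker.subtype ⊔ Subgroup.zpowers (t ^ k)).FiniteIndex := by
  set L := C.map φ.ker.subtype ⊔ Subgroup.zpowers (t ^ k) with hL
  have : Finite (H ⧸ L) := by
    refine Finite.of_surjective
      (fun p : (φ.ker ⧸ C) × Fin k => (QuotientGroup.mk ((p.1.out : H) * t ^ (p.2 : ℕ)) : H ⧸ L)) ?_
    intro q
    obtain ⟨h, rfl⟩ := QuotientGroup.mk_surjective q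
    set m : ℤ := Multiplicative.toAdd (φ h) with hm
    have hk' : (0 : ℤ) < k := by exact_mod_cast hk
    have h0 : 0 ≤ m % k := Int.emod_nonneg _ hk'.ne'
    have h1 : m % k < k := Int.emod_lt_of_pos _ hk'
    have hn : h * t ^ (-m) ∈ φ.ker := by
      rw [MonoidHom.mem_ker, map_mul, map_zpow, ht]
      apply Multiplicative.toAdd.injective
      simp [hm]
    obtain ⟨c, hc⟩ := QuotientGroup.mk_out_eq_mul C ⟨_, hn⟩
    refine ⟨⟨QuotientGroup.mk ⟨_, hn⟩, ⟨(m % k).toNat, by omega⟩⟩, ?_⟩
    simp only []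
    rw [hc, QuotientGroup.eq]
    have e1 : t ^ (m % k).toNat = t ^ (m % k) := by
      rw [← zpow_natCast, Int.toNat_of_nonneg h0]
    have e2 : t ^ m = t ^ (m % k) * (t ^ k) ^ (m / k) := by
      rw [← zpow_natCast, ← zpow_mul, ← zpow_add, Int.emod_add_mul_ediv]
    have hc1 : ((c : φ.ker) : H) ∈ C.map φ.ker.subtype := ⟨c, c.2, rfl⟩
    have hc2 := (inferInstance : (C.map φ.ker.subtype).Normal).conj_mem _
      (Subgroup.inv_mem _ hc1) (t ^ (m % k))⁻¹
    have e3 : ((((⟨_, hn⟩ : φ.ker) * c : φ.ker) : H) * t ^ (m % k).toNat)⁻¹ * h =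
        ((t ^ (m % k))⁻¹ * ((c : φ.ker) : H)⁻¹ * (t ^ (m % k))⁻¹⁻¹) * (t ^ k) ^ (m / k) := by
      rw [e1, Subgroup.coe_mul]
      show (h * t ^ (-m) * ((c : φ.ker) : H) * t ^ (m % k))⁻¹ * h = _
      rw [zpow_neg, e2]
      group
    rw [e3]
    exact L.mul_mem (Subgroup.mem_sup_left hc2)
      (Subgroup.mem_sup_right (Subgroup.zpow_mem_zpowers _ _))
  exact Subgroup.finiteIndex_of_finite_quotient

theorem main_finite (G : Type) [Group G] [Finite G] :
    (∀ K : Subgroup G, K.FG) ∧ ∃ H : Subgroup G, H.FiniteIndex ∧ Group.IsNilpotent H :=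
  ⟨main_noe_finite, ⊥, inferInstance, inferInstance⟩

theorem main_ind (hH : HomS) (hM : MilS) (hN : NilS) (d : ℕ) :
    ∀ (G : Type) [Group G] [Group.FG G], PG G d →
      (∀ K : Subgroup G, K.FG) ∧ ∃ H : Subgroup G, H.FiniteIndex ∧ Group.IsNilpotent H := by
  induction d with
  | zero =>
    intro G _ _ h
    rcases finite_or_infinite G with hf | hi
    · exact main_finite G
    · obtain ⟨H, _, φ, hφ⟩ := hH 0 G h
      exact absurd ((h.sub H).of_surjective φ hφ) main_not_pg_int
  | succ d ih =>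
    intro G _ _ h
    rcases finite_or_infinite G with hf | hi
    · exact main_finite G
    obtain ⟨H, hfi, φ, hφ⟩ := hH (d + 1) G h
    obtain ⟨hfg, hpg⟩ := hM d H (h.sub H) φ hφ
    have : Group.FG φ.ker := (Group.fg_iff_subgroup_fg _).2 hfg
    obtain ⟨hno, M, hMi, hMn⟩ := ih φ.ker hpg
    have hnoH : ∀ K : Subgroup H, K.FG := fun K =>
      main_fg_ext φ K (main_noe_int _) (main_fg_le φ.ker hno _ inf_le_right)
    refine ⟨main_noe_over H hnoH, ?_⟩
    obtain ⟨C, hCc, hCi, hCn⟩ := main_char M hMn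
    obtain ⟨t, ht⟩ := hφ (Multiplicative.ofAdd 1)
    have : (C.map φ.ker.subtype).Normal := ConjAct.normal_of_characteristic_of_normal
    have hn1 : Group.IsNilpotent (C.map φ.ker.subtype) :=
      Group.nilpotent_of_mulEquiv (C.equivMapOfInjective _ φ.ker.subtype_injective)
    obtain ⟨k, hk, hL⟩ := hN (d + 1) H (h.sub H) hnoH (C.map φ.ker.subtype) hn1 t
    have hLi := main_index φ t ht C k hk
    refine ⟨(C.map φ.ker.subtype ⊔ Subgroup.zpowers (t ^ k)).map H.subtype, ⟨?_⟩,
      Group.nilpotent_of_mulEquiv (Subgroup.equivMapOfInjective _ _ H.subtype_injective)⟩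
    rw [Subgroup.index_map_subtype]
    exact mul_ne_zero hLi.index_ne_zero hfi.index_ne_zero

theorem gromovS (hH : HomS) (hM : MilS) (hN : NilS) : GromovS :=
  fun d G _ _ h => (main_ind hH hM hN d G h).2

end Pool.Agent.Gromov
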