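import Pool.Agent.Lib.Gromov.Walk

/-! The invariant mean along good times. -/

set_option autoImplicit false

open scoped Pointwise Classical
open Filter Topology

namespace Pool.Agent.Gromov.W

variable {G : Type} [Group G]

theorem harm_shift {S : Finset G} {u : G → ℂ} (hu : Harm S u) (g : G) :
    Harm S (fun x => u (g * x)) := fun x => by
  simpa [mul_assoc] using hu (g * x)

theorem harm_sub {S : Finset G} {u : G → ℂ} (hu : Harm S u) (c : ℂ) :
    Harm S (fun x => u x - c) := fun x => by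
  rw [Finset.sum_sub_distrib, hu x, Finset.sum_const, nsmul_eq_mul]
  ring

theorem liou {S : Finset G} (hG : Gen S) {d : ℕ} (h : PG G d) {u : G → ℂ} (hu : Harm S u)
    (hb : Bdd u) (x : G) : u x = u 1 := by
  have hS : S.Nonempty := ⟨1, hG.1⟩
  obtain ⟨M, hM⟩ := hb
  have step : ∀ g, ∀ t ∈ S, u (g * t) = u g := by
    intro g t ht
    have hv := harm_shift hu g
    have key : ∀ n0 : ℕ, ((n0 : ℝ) + 1) * ‖u (g * t) - u g‖ ^ 2 ≤
        2 * S.card * (S.card + 1) * (d + 1) * M ^ 2 := by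
      intro n0
      obtain ⟨n, hn, hD⟩ := good_times hS h n0
      have h1 := ent_ineq hS n ht (fun x => u (g * x))
      rw [EE_harm hS (harm_shift hv t), EE_harm hS hv] at h1
      simp only [mul_one] at h1
      have h2 : EE S (n + 1) (fun x => ‖u (g * x)‖ ^ 2) ≤ M ^ 2 := by
        refine (EE_mono S _ (g := fun _ => M ^ 2) fun x => ?_).trans (EE_const hS _ _).le
        exact pow_le_pow_left₀ (norm_nonneg _) (hM _) 2
      have h3 := DD_nonneg hS n
      have h4 : ‖u (g * t) - u g‖ ^ 2 ≤ 2 * S.card * (S.card + 1) * DD S n * M ^ 2 :=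
        h1.trans (mul_le_mul_of_nonneg_left h2 (by positivity))
      have h5 : (n0 : ℝ) + 1 ≤ n + 1 := by exact_mod_cast Nat.succ_le_succ hn
      calc ((n0 : ℝ) + 1) * ‖u (g * t) - u g‖ ^ 2 ≤ (n + 1) * ‖u (g * t) - u g‖ ^ 2 :=
            mul_le_mul_of_nonneg_right h5 (sq_nonneg _)
        _ ≤ (n + 1) * (2 * S.card * (S.card + 1) * DD S n * M ^ 2) :=
            mul_le_mul_of_nonneg_left h4 (by positivity)
        _ = 2 * S.card * (S.card + 1) * ((n + 1) * DD S n) * M ^ 2 := by ring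
        _ ≤ _ := by gcongr
    by_contra hne
    have hp : 0 < ‖u (g * t) - u g‖ ^ 2 := pow_pos (norm_pos_iff.2 (sub_ne_zero.2 hne)) 2
    obtain ⟨k, hk⟩ := exists_nat_gt
      ((2 * S.card * (S.card + 1) * (d + 1) * M ^ 2) / ‖u (g * t) - u g‖ ^ 2)
    rw [div_lt_iff₀ hp] at hk
    have := key k
    nlinarith
  have hx : x ∈ Subgroup.closure (S : Set G) := by rw [hG.2.2]; trivial
  have all : ∀ g, u (g * x) = u g := by
    induction hx using Subgroup.closure_induction with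
    | mem y hy => exact fun g => step g y hy
    | one => simp
    | mul y z _ _ hy hz => intro g; rw [← mul_assoc, hz, hy]
    | inv y _ hy => intro g; simpa using (hy (g * y⁻¹)).symm
  simpa using all 1

/-- Cesaro averages started at `x` -/
noncomputable def MM (S : Finset G) (F : G → ℂ) (x : G) (n : ℕ) : ℂ :=
  ((n : ℂ) + 1)⁻¹ * ∑ j ∈ Finset.range (n + 1), EE S j (fun y => F (x * y))

theorem MM_norm {S : Finset G} (hS : S.Nonempty) {F : G → ℂ} {M : ℝ} (h : ∀ x, ‖F x‖ ≤ M)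
    (x : G) (n : ℕ) : ‖MM S F x n‖ ≤ M := by
  have h1 : ‖∑ j ∈ Finset.range (n + 1), EE S j (fun y => F (x * y))‖ ≤ (n + 1) * M := by
    refine (norm_sum_le _ _).trans ?_
    refine (Finset.sum_le_sum fun j _ => EE_norm hS j (M := M) fun y => h _).trans ?_
    simp
  have h2 : ‖((n : ℂ) + 1)⁻¹‖ = ((n : ℝ) + 1)⁻¹ := by
    rw [norm_inv]
    congr 1
    exact_mod_cast Complex.norm_natCast (n + 1)
  rw [MM, norm_mul, h2, inv_mul_le_iff₀ (by positivity)]
  exact h1

theorem MM_re (S : Finset G) (F : G → ℂ) (x : G) (n : ℕ) :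
    (MM S F x n).re =
      ((n : ℝ) + 1)⁻¹ * ∑ j ∈ Finset.range (n + 1), EE S j (fun y => (F (x * y)).re) := by
  have : ((n : ℂ) + 1)⁻¹ = ((((n : ℝ) + 1)⁻¹ : ℝ) : ℂ) := by push_cast; rfl
  rw [MM, this, Complex.re_ofReal_mul, Complex.re_sum]
  simp only [EE_re]

theorem MM_add (S : Finset G) (F F' : G → ℂ) (x : G) (n : ℕ) :
    MM S (F + F') x n = MM S F x n + MM S F' x n := by
  simp only [MM, Pi.add_apply, EE_add, Finset.sum_add_distrib, mul_add]

theorem MM_smul (S : Finset G) (c : ℂ) (F : G → ℂ) (x : G) (n : ℕ) :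
    MM S (c • F) x n = c * MM S F x n := by
  simp only [MM, EE_eq, Pi.smul_apply, smul_eq_mul, Complex.real_smul, Finset.mul_sum]
  refine Finset.sum_congr rfl fun j _ => Finset.sum_congr rfl fun y _ => ?_
  ring

theorem MM_star (S : Finset G) (F : G → ℂ) (x : G) (n : ℕ) :
    MM S (star F) x n = star (MM S F x n) := by
  simp [MM, EE_eq, Complex.real_smul]

theorem MM_step {S : Finset G} (hS : S.Nonempty) {F : G → ℂ} {M : ℝ} (h : ∀ x, ‖F x‖ ≤ M)
    (x : G) (n : ℕ) :
    ‖∑ s ∈ S, MM S F (x * s) n - S.card * MM S F x n‖ ≤ S.card * (2 * M) / (n + 1) := by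
  have hc : (S.card : ℂ) ≠ 0 := by exact_mod_cast hS.card_pos.ne'
  have e1 : ∀ j, ∑ s ∈ S, EE S j (fun y => F (x * s * y)) =
      S.card * EE S (j + 1) (fun y => F (x * y)) := by
    intro j
    rw [EE_left, Complex.real_smul]
    push_cast
    rw [← mul_assoc, mul_inv_cancel₀ hc, one_mul]
    simp only [mul_assoc]
  have e2 : ∑ s ∈ S, MM S F (x * s) n - S.card * MM S F x n =
      ((n : ℂ) + 1)⁻¹ * (S.card * (EE S (n + 1) (fun y => F (x * y)) -
        EE S 0 (fun y => F (x * y)))) := by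
    rw [← Finset.sum_range_sub (fun j => EE S j (fun y => F (x * y))), Finset.sum_sub_distrib]
    simp only [MM]
    rw [← Finset.mul_sum, Finset.sum_comm]
    simp only [e1]
    rw [← Finset.mul_sum]
    ring
  have h2 : ‖((n : ℂ) + 1)⁻¹‖ = ((n : ℝ) + 1)⁻¹ := by
    rw [norm_inv]
    congr 1
    exact_mod_cast Complex.norm_natCast (n + 1)
  have h3 : ‖EE S (n + 1) (fun y => F (x * y)) - EE S 0 (fun y => F (x * y))‖ ≤ 2 * M := by
    refine (norm_sub_le _ _).trans ?_
    have a1 := EE_norm hS (n + 1) (f := fun y => F (x * y)) fun y => h _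
    have a2 := EE_norm hS 0 (f := fun y => F (x * y)) fun y => h _
    linarith
  rw [e2, norm_mul, norm_mul, h2, Complex.norm_natCast, div_eq_inv_mul]
  gcongr

theorem gam_self (S : Finset G) (u : G → ℂ) (x : G) :
    (Gam S u u x).re = (S.card : ℝ)⁻¹ * ∑ s ∈ S, ‖u (x * s) - u x‖ ^ 2 := by
  have : (S.card : ℂ)⁻¹ = (((S.card : ℝ)⁻¹ : ℝ) : ℂ) := by push_cast; rfl
  rw [Gam, this, Complex.re_ofReal_mul, Complex.re_sum]
  congr 1
  refine Finset.sum_congr rfl fun s _ => ?_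
  rw [Complex.star_def, Complex.conj_mul', ← Complex.ofReal_pow, Complex.ofReal_re]

theorem gam_bdd {S : Finset G} {u : G → ℂ} (hu : Lip S u) : Bdd (Gam S u u) := by
  obtain ⟨L, hL⟩ := hu
  refine ⟨‖(S.card : ℂ)⁻¹‖ * ∑ _s ∈ S, L * L, fun x => ?_⟩
  rw [Gam, norm_mul]
  refine mul_le_mul_of_nonneg_left ((norm_sum_le _ _).trans (Finset.sum_le_sum fun s hs => ?_))
    (norm_nonneg _)
  rw [norm_mul, norm_star]
  exact mul_le_mul (hL x s hs) (hL x s hs) (norm_nonneg _) ((norm_nonneg _).trans (hL x s hs))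

theorem avg_sq {S : Finset G} (hS : S.Nonempty) {u : G → ℂ} (hu : Harm S u) (c : ℂ) (x : G) :
    (S.card : ℝ)⁻¹ • ∑ s ∈ S, ‖u (x * s) - c‖ ^ 2 = ‖u x - c‖ ^ 2 + (Gam S u u x).re := by
  have hc : (S.card : ℝ) ≠ 0 := by exact_mod_cast hS.card_pos.ne'
  have e0 : ∑ s ∈ S, (u (x * s) - u x) = 0 := by
    rw [Finset.sum_sub_distrib, hu x, Finset.sum_const, nsmul_eq_mul, sub_self]
  have e1 : ∀ s, ‖u (x * s) - c‖ ^ 2 = ‖u x - c‖ ^ 2 + ‖u (x * s) - u x‖ ^ 2 +
      2 * ((starRingEnd ℂ) (u x - c) * (u (x * s) - u x)).re := by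
    intro s
    simp only [Complex.sq_norm, Complex.normSq_apply, Complex.mul_re, Complex.sub_re,
      Complex.sub_im, Complex.conj_re, Complex.conj_im]
    ring
  have e2 : ∑ s ∈ S, 2 * ((starRingEnd ℂ) (u x - c) * (u (x * s) - u x)).re = 0 := by
    rw [← Finset.mul_sum, ← Complex.re_sum, ← Finset.mul_sum, e0]
    simp
  simp only [e1, Finset.sum_add_distrib, e2, gam_self, Finset.sum_const, nsmul_eq_mul,
    smul_eq_mul]
  field_simp
  ring

theorem EE_sq {S : Finset G} (hS : S.Nonempty) {u : G → ℂ} (hu : Harm S u) (n : ℕ) :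
    EE S n (fun x => ‖u x - u 1‖ ^ 2) =
      ∑ j ∈ Finset.range n, EE S j (fun y => (Gam S u u y).re) := by
  induction n with
  | zero => simp [EE_zero]
  | succ n ih =>
    rw [EE_right, Finset.sum_range_succ, ← ih, ← EE_add]
    congr 1
    funext x
    exact avg_sq hS hu (u 1) x

theorem meanS : MeanS := by
  intro d G _ S hG h
  have hS : S.Nonempty := ⟨1, hG.1⟩
  have hfr : ∃ᶠ n : ℕ in atTop, ((n : ℝ) + 1) * DD S n ≤ d + 1 := by
    rw [frequently_atTop]
    intro n0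
    obtain ⟨n, h1, h2⟩ := good_times hS h n0
    exact ⟨n, h1, h2⟩
  haveI hne : (atTop ⊓ 𝓟 {n : ℕ | ((n : ℝ) + 1) * DD S n ≤ d + 1}).NeBot :=
    frequently_iff_neBot.1 hfr
  let U : Ultrafilter ℕ := Ultrafilter.of (atTop ⊓ 𝓟 {n : ℕ | ((n : ℝ) + 1) * DD S n ≤ d + 1})
  have hU : (U : Filter ℕ) ≤ atTop ⊓ 𝓟 {n : ℕ | ((n : ℝ) + 1) * DD S n ≤ d + 1} :=
    Ultrafilter.of_le _
  have hU1 : (U : Filter ℕ) ≤ atTop := hU.trans inf_le_left
  have hU2 : ∀ᶠ n : ℕ in (U : Filter ℕ), ((n : ℝ) + 1) * DD S n ≤ d + 1 :=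
    le_principal_iff.1 (hU.trans inf_le_right)
  let L : (G → ℂ) → G → ℂ := fun F x => limUnder (U : Filter ℕ) (MM S F x)
  have hL : ∀ F, Bdd F → ∀ x, Tendsto (MM S F x) U (𝓝 (L F x)) := by
    rintro F ⟨M, hM⟩ x
    apply tendsto_nhds_limUnder
    obtain ⟨z, -, hz⟩ := (isCompact_closedBall (0 : ℂ) M).ultrafilter_le_nhds
      (U.map (MM S F x)) (by
        rw [le_principal_iff, Ultrafilter.mem_coe, Ultrafilter.mem_map]
        exact Filter.univ_mem' fun n => by simpa using MM_norm hS hM x n)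
    exact ⟨z, hz⟩
  have hLb : ∀ F, Bdd F → Bdd (L F) := by
    rintro F ⟨M, hM⟩
    exact ⟨M, fun x => le_of_tendsto' (hL F ⟨M, hM⟩ x).norm fun n => MM_norm hS hM x n⟩
  have hLh : ∀ F, Bdd F → Harm S (L F) := by
    rintro F ⟨M, hM⟩ x
    have t1 : Tendsto (fun n => ∑ s ∈ S, MM S F (x * s) n - S.card * MM S F x n) U
        (𝓝 (∑ s ∈ S, L F (x * s) - S.card * L F x)) :=
      (tendsto_finset_sum _ fun s _ => hL F ⟨M, hM⟩ _).sub
        ((hL F ⟨M, hM⟩ x).const_mul _)
    have t2 : Tendsto (fun n => ∑ s ∈ S, MM S F (x * s) n - S.card * MM S F x n) atTop (𝓝 0) := by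
      refine squeeze_zero_norm (fun n => MM_step hS hM x n) ?_
      have := (tendsto_one_div_add_atTop_nhds_zero_nat (𝕜 := ℝ)).const_mul (S.card * (2 * M))
      simpa [div_eq_mul_inv] using this
    exact sub_eq_zero.1 (tendsto_nhds_unique t1 (t2.mono_left hU1))
  refine ⟨fun F => L F 1, 2 * S.card * (S.card + 1) * (d + 1), ?_, ?_, ?_, ?_, ?_, ?_, ?_⟩
  · rintro F F' ⟨M, hM⟩ ⟨M', hM'⟩
    have hb : Bdd (F + F') := ⟨M + M', fun x => (norm_add_le _ _).trans (add_le_add (hM x) (hM' x))⟩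
    refine tendsto_nhds_unique (hL _ hb 1) ?_
    have := (hL F ⟨M, hM⟩ 1).add (hL F' ⟨M', hM'⟩ 1)
    exact this.congr fun n => (MM_add S F F' 1 n).symm
  · rintro c F ⟨M, hM⟩
    have hb : Bdd (c • F) := ⟨‖c‖ * M, fun x => by
      rw [Pi.smul_apply, norm_smul]; exact mul_le_mul_of_nonneg_left (hM x) (norm_nonneg _)⟩
    refine tendsto_nhds_unique (hL _ hb 1) ?_
    exact ((hL F ⟨M, hM⟩ 1).const_mul c).congr fun n => (MM_smul S c F 1 n).symm
  · rintro F ⟨M, hM⟩
    have hb : Bdd (star F) := ⟨M, fun x => by simpa using hM x⟩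
    refine tendsto_nhds_unique (hL _ hb 1) ?_
    exact ((hL F ⟨M, hM⟩ 1).star).congr fun n => (MM_star S F 1 n).symm
  · intro F M hb hM
    refine le_of_tendsto' ((Complex.continuous_re.tendsto _).comp (hL F hb 1)) fun n => ?_
    simp only [Function.comp]
    rw [MM_re, inv_mul_le_iff₀ (by positivity)]
    refine (Finset.sum_le_sum fun j _ =>
      (EE_mono S j (g := fun _ => M) fun y => hM _).trans (EE_const hS j M).le).trans ?_
    simp
  · intro F g hb
    have e : L (fun x => F (g * x)) 1 = L F g := by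
      simp only [L]
      congr 1
      funext n
      simp [MM]
    simp only [e]
    exact liou hG h (hLh F hb) (hLb F hb) g
  · intro u hu hl t ht
    have t1 := (((Complex.continuous_re.tendsto _).comp (hL _ (gam_bdd hl) 1)).const_mul
      (2 * S.card * (S.card + 1) * (d + 1) : ℝ))
    refine ge_of_tendsto t1 (hU2.mono fun n hn => ?_)
    have hv := harm_sub hu (u 1)
    have h1 := ent_ineq hS n ht (fun x => u x - u 1)
    rw [EE_harm hS (harm_shift hv t), EE_harm hS hv, EE_sq hS hu] at h1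
    simp only [mul_one, sub_self, sub_zero] at h1
    simp only [Function.comp, MM_re, one_mul]
    have h2 : 0 ≤ ∑ j ∈ Finset.range (n + 1), EE S j (fun y => (Gam S u u y).re) := by
      rw [← EE_sq hS hu]
      exact (EE_const hS _ (0 : ℝ)).ge.trans (EE_mono S _ fun x => sq_nonneg _)
    have h3 : DD S n ≤ (d + 1) * ((n : ℝ) + 1)⁻¹ := by
      rw [← div_eq_mul_inv, le_div_iff₀ (by positivity)]
      linarith
    refine h1.trans ?_
    calc _ ≤ 2 * S.card * (S.card + 1) * ((d + 1) * ((n : ℝ) + 1)⁻¹) *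
          ∑ j ∈ Finset.range (n + 1), EE S j (fun y => (Gam S u u y).re) := by gcongr
      _ = _ := by ring
  · intro u hu hb x
    exact liou hG h hu hb x

end Pool.Agent.Gromov.W
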