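import Pool.Agent.Lib.Gromov.Defs

/-! Milnor's lemma: kernels of maps onto the integers. -/

set_option autoImplicit false

open scoped Pointwise Classical

namespace Pool.Agent.Gromov

namespace Mil

theorem exists_lt (C D : ℕ) : ∃ m : ℕ, C * (m + 1) ^ D < 2 ^ m := by
  have h := (tendsto_pow_const_div_const_pow_of_one_lt D (one_lt_two (α := ℝ))).comp
    (Filter.tendsto_add_atTop_nat 1)
  have p : (0 : ℝ) < 1 / (2 * C + 1) := by positivity
  obtain ⟨m, hm⟩ := (h.eventually (gt_mem_nhds p)).exists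
  refine ⟨m, ?_⟩
  have e : ((m + 1 : ℕ) : ℝ) ^ D / 2 ^ (m + 1) < 1 / (2 * C + 1) := hm
  rw [div_lt_div_iff₀ (by positivity) (by positivity), pow_succ (2 : ℝ) m] at e
  have q : (0 : ℝ) ≤ ((m + 1 : ℕ) : ℝ) ^ D := by positivity
  have : (C : ℝ) * ((m + 1 : ℕ) : ℝ) ^ D < 2 ^ m := by nlinarith
  exact_mod_cast this

variable {G : Type} [Group G]

/-- the conjugate of `x` by a power of `t`. -/
def cj (t x : G) (i : ℕ) : G := t ^ i * x * (t ^ i)⁻¹

/-- words in `t` and `x t`. -/
def wd (t x : G) : List Bool → G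
  | [] => 1
  | e :: l => wd t x l * (if e then x * t else t)

/-- the group generated by the first `r` conjugates. -/
def sg (t x : G) (r : ℕ) : Subgroup G := Subgroup.closure (cj t x '' Set.Iio r)

theorem sg_mono (t x : G) {r s : ℕ} (h : r ≤ s) : sg t x r ≤ sg t x s :=
  Subgroup.closure_mono (Set.image_mono (Set.Iio_subset_Iio h))

theorem cj_mem (t x : G) {i r : ℕ} (h : i < r) : cj t x i ∈ sg t x r :=
  Subgroup.subset_closure ⟨i, h, rfl⟩

theorem wd_mem (t x : G) (l : List Bool) : wd t x l * (t ^ l.length)⁻¹ ∈ sg t x l.length := by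
  induction l with
  | nil => simp [wd]
  | cons e l ih =>
    have k := sg_mono t x (Nat.le_succ l.length) ih
    cases e
    · have e : wd t x (false :: l) * (t ^ (l.length + 1))⁻¹ = wd t x l * (t ^ l.length)⁻¹ := by
        simp [wd, pow_succ, mul_assoc]
      exact e ▸ k
    · have e : wd t x (true :: l) * (t ^ (l.length + 1))⁻¹ =
          wd t x l * (t ^ l.length)⁻¹ * cj t x l.length := by
        simp [wd, cj, pow_succ, mul_assoc]
      exact e ▸ mul_mem k (cj_mem t x (Nat.lt_succ_self _))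

theorem wd_pow (t x : G) (l : List Bool) : wd t x l ∈ ({x * t, t} : Finset G) ^ l.length := by
  induction l with
  | nil => simp [wd]
  | cons e l ih =>
    rw [List.length_cons, pow_succ]
    exact Finset.mul_mem_mul ih (by cases e <;> simp)

theorem step (t x : G) {l l' : List Bool} (h : l.length = l'.length)
    (e : wd t x l * (x * t) = wd t x l' * t) : cj t x l.length ∈ sg t x l.length := by
  have a := wd_mem t x l
  have b := wd_mem t x l'
  rw [← h] at b
  have e2 : wd t x l' = wd t x l * x := by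
    rw [← mul_assoc] at e
    exact (mul_right_cancel e).symm
  have : cj t x l.length = (wd t x l * (t ^ l.length)⁻¹)⁻¹ * (wd t x l' * (t ^ l.length)⁻¹) := by
    rw [e2, cj]
    group
  exact this ▸ mul_mem (inv_mem a) b

theorem coll (t x : G) : ∀ l l' : List Bool, l.length = l'.length → l ≠ l' →
    wd t x l = wd t x l' → ∃ r, cj t x r ∈ sg t x r
  | [], [], _, h, _ => absurd rfl h
  | [], _ :: _, h, _, _ => by simp at h
  | _ :: _, [], h, _, _ => by simp at h
  | e :: l, e' :: l', h, n, w => by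
    have h' : l.length = l'.length := by simpa using h
    cases e <;> cases e'
    · exact coll t x l l' h' (fun k => n (k ▸ rfl)) (mul_right_cancel w)
    · exact ⟨_, step t x h'.symm w.symm⟩
    · exact ⟨_, step t x h' w⟩
    · exact coll t x l l' h' (fun k => n (k ▸ rfl)) (mul_right_cancel w)

theorem half {D : ℕ} (h : PG G D) (t x : G) : ∃ r, ∀ k, cj t x k ∈ sg t x r := by
  obtain ⟨C, hC⟩ := h {x * t, t}
  obtain ⟨m, hm⟩ := exists_lt C D
  obtain ⟨f, -, g, -, n, w⟩ := Finset.exists_ne_map_eq_of_card_lt_of_maps_to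
    (s := (Finset.univ : Finset (Fin m → Bool))) (t := ({x * t, t} : Finset G) ^ m)
    (f := fun f => wd t x (List.ofFn f)) (by simpa using (hC m).trans_lt hm)
    fun f _ => Finset.mem_coe.2 (by simpa only [List.length_ofFn] using wd_pow t x (List.ofFn f))
  obtain ⟨r, hr⟩ := coll t x _ _ (by simp) (fun k => n (List.ofFn_injective k)) w
  have s : ∀ i, cj t x (i + 1) = t * cj t x i * t⁻¹ := fun i => by
    rw [cj, cj, pow_succ']
    group
  have le : ∀ i ≤ r, cj t x i ∈ sg t x r := fun i hi => by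
    rcases hi.eq_or_lt with rfl | k
    exacts [hr, cj_mem t x k]
  have inv : ∀ y ∈ sg t x r, t * y * t⁻¹ ∈ sg t x r := fun y hy => by
    induction hy using Subgroup.closure_induction with
    | mem y hy =>
      obtain ⟨i, hi, rfl⟩ := hy
      exact s i ▸ le _ hi
    | one => simp
    | mul a b _ _ ha hb =>
      have : t * (a * b) * t⁻¹ = t * a * t⁻¹ * (t * b * t⁻¹) := by group
      exact this ▸ mul_mem ha hb
    | inv a _ ha =>
      have : t * a⁻¹ * t⁻¹ = (t * a * t⁻¹)⁻¹ := by group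
      exact this ▸ inv_mem ha
  refine ⟨r, fun k => ?_⟩
  induction k with
  | zero => exact le 0 r.zero_le
  | succ k ih => exact s k ▸ inv _ ih

theorem both {D : ℕ} (h : PG G D) (N : Subgroup G) [N.Normal] (t : G) {x : G} (hx : x ∈ N) :
    ∃ K : Subgroup G, K.FG ∧ K ≤ N ∧ ∀ k : ℤ, t ^ k * x * (t ^ k)⁻¹ ∈ K := by
  have fg : ∀ t r, (sg t x r).FG := fun t r =>
    (Subgroup.fg_iff _).2 ⟨_, rfl, (Set.finite_Iio r).image _⟩
  have le : ∀ t r, sg t x r ≤ N := fun t r => (Subgroup.closure_le _).2 fun y ⟨i, _, e⟩ =>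
    e ▸ Subgroup.Normal.conj_mem inferInstance x hx _
  obtain ⟨r, hr⟩ := half h t x
  obtain ⟨r', hr'⟩ := half h t⁻¹ x
  refine ⟨sg t x r ⊔ sg t⁻¹ x r', (fg _ _).sup (fg _ _), sup_le (le _ _) (le _ _), fun k => ?_⟩
  obtain ⟨n, rfl | rfl⟩ := k.eq_nat_or_neg
  · exact Subgroup.mem_sup_left (by simpa [cj] using hr n)
  · exact Subgroup.mem_sup_right (by simpa [cj] using hr' n)

theorem ker_fg [Group.FG G] {D : ℕ} (h : PG G D) (φ : G →* Multiplicative ℤ) {t : G}
    (ht : φ t = Multiplicative.ofAdd 1) : φ.ker.FG := by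
  obtain ⟨S, hS⟩ := Group.fg_def.1 ‹_›
  have km : ∀ g : G, g * (t ^ (φ g).toAdd)⁻¹ ∈ φ.ker := fun g => by
    rw [MonoidHom.mem_ker, map_mul, map_inv, map_zpow, ht, ← ofAdd_zsmul]
    simp
  choose K hK using fun s : S => both h φ.ker t (km s)
  have key : ∀ g : G, ∀ k : ℤ, t ^ k * (g * (t ^ (φ g).toAdd)⁻¹) * (t ^ k)⁻¹ ∈ ⨆ s, K s := by
    intro g
    have hg : g ∈ Subgroup.closure (S : Set G) := hS ▸ Subgroup.mem_top g
    induction hg using Subgroup.closure_induction with
    | mem y hy => exact fun k => Subgroup.mem_iSup_of_mem ⟨y, hy⟩ ((hK ⟨y, hy⟩).2.2 k)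
    | one => simp
    | mul a b _ _ ha hb =>
      intro k
      have : t ^ k * (a * b * (t ^ (φ (a * b)).toAdd)⁻¹) * (t ^ k)⁻¹ =
          t ^ k * (a * (t ^ (φ a).toAdd)⁻¹) * (t ^ k)⁻¹ * (t ^ (k + (φ a).toAdd) *
            (b * (t ^ (φ b).toAdd)⁻¹) * (t ^ (k + (φ a).toAdd))⁻¹) := by
        rw [map_mul, toAdd_mul]
        group
      exact this ▸ mul_mem (ha k) (hb _)
    | inv a _ ha =>
      intro k
      have : t ^ k * (a⁻¹ * (t ^ (φ a⁻¹).toAdd)⁻¹) * (t ^ k)⁻¹ =
          (t ^ (k - (φ a).toAdd) * (a * (t ^ (φ a).toAdd)⁻¹) * (t ^ (k - (φ a).toAdd))⁻¹)⁻¹ := by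
        rw [map_inv, toAdd_inv]
        group
      exact this ▸ inv_mem (ha _)
  have e : φ.ker = ⨆ s, K s := by
    refine le_antisymm (fun g hg => ?_) (iSup_le fun s => (hK s).2.1)
    have := key g 0
    rw [MonoidHom.mem_ker.1 hg] at this
    simpa using this
  rw [e]
  exact Subgroup.FG.iSup _ fun s => (hK s).1

theorem ker_pg {d : ℕ} (h : PG G (d + 1)) (φ : G →* Multiplicative ℤ) {t : G}
    (ht : φ t = Multiplicative.ofAdd 1) {H : Type} [Group H] (ι : H →* G)
    (hι : Function.Injective ι) (h0 : ∀ x, φ (ι x) = 1) : PG H d := by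
  intro S
  obtain ⟨C, hC⟩ := h (insert 1 (insert t (S.image ι)))
  refine ⟨C * 2 ^ (d + 1), fun n => ?_⟩
  set U := insert 1 (insert t (S.image ι)) with hU
  have u1 : (1 : G) ∈ U := Finset.mem_insert_self _ _
  have ut : t ∈ U := Finset.mem_insert_of_mem (Finset.mem_insert_self _ _)
  have us : S.image ι ⊆ U := (Finset.subset_insert _ _).trans (Finset.subset_insert _ _)
  have ph : ∀ (j : ℕ) (x : H), φ (t ^ j * ι x) = Multiplicative.ofAdd (j : ℤ) := fun j x => by
    rw [map_mul, h0, mul_one, map_pow, ht, ← ofAdd_nsmul]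
    simp
  have c : (Finset.range (n + 1) ×ˢ (S ^ n)).card ≤ (U ^ (n + n)).card := by
    refine Finset.card_le_card_of_injOn (fun p => t ^ p.1 * ι p.2) ?_ ?_
    · rintro ⟨j, x⟩ hp
      obtain ⟨hj, hx⟩ := Finset.mem_product.1 hp
      rw [Finset.mem_coe, pow_add]
      refine Finset.mul_mem_mul (Finset.pow_subset_pow_right u1
        (Nat.lt_succ_iff.1 (Finset.mem_range.1 hj)) (Finset.pow_mem_pow ut)) ?_
      refine Finset.pow_subset_pow_left us ?_
      rw [← Finset.image_pow]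
      exact Finset.mem_image_of_mem _ hx
    · rintro ⟨j, x⟩ - ⟨j', x'⟩ - e
      have e1 : t ^ j * ι x = t ^ j' * ι x' := e
      have e2 := congrArg φ e1
      rw [ph, ph] at e2
      obtain rfl : j = j' := by exact_mod_cast Multiplicative.ofAdd.injective e2
      rw [hι (mul_left_cancel e1)]
  rw [Finset.card_product, Finset.card_range] at c
  refine Nat.le_of_mul_le_mul_left (c.trans ((hC _).trans ?_)) n.succ_pos
  calc C * (n + n + 1) ^ (d + 1) ≤ C * (2 * (n + 1)) ^ (d + 1) := by gcongr; omega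
    _ = (n + 1) * (C * 2 ^ (d + 1) * (n + 1) ^ d) := by rw [mul_pow]; ring

end Mil

theorem milS : MilS := by
  intro d G _ _ h φ hφ
  obtain ⟨t, ht⟩ := hφ (Multiplicative.ofAdd 1)
  exact ⟨Mil.ker_fg h φ ht, Mil.ker_pg h φ ht φ.ker.subtype φ.ker.subtype_injective fun x => x.2⟩

theorem genS : GenS := by
  rintro d G _ S hS ⟨C, hC⟩ T
  set U := insert 1 (S ∪ S⁻¹) with hU
  have u1 : (1 : G) ∈ U := Finset.mem_insert_self _ _
  have a : ∀ g : G, ∃ k, g ∈ U ^ k := fun g => by
    have hg : g ∈ Subgroup.closure (S : Set G) := hS ▸ Subgroup.mem_top g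
    induction hg using Subgroup.closure_induction_left with
    | one => exact ⟨0, by simp⟩
    | mul_left x hx y _ ih =>
      obtain ⟨k, hk⟩ := ih
      exact ⟨k + 1, pow_succ' U k ▸ Finset.mul_mem_mul
        (Finset.mem_insert_of_mem (Finset.mem_union_left _ hx)) hk⟩
    | inv_mul_cancel x hx y _ ih =>
      obtain ⟨k, hk⟩ := ih
      exact ⟨k + 1, pow_succ' U k ▸ Finset.mul_mem_mul
        (Finset.mem_insert_of_mem (Finset.mem_union_right _ (Finset.inv_mem_inv hx))) hk⟩
  choose k hk using a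
  have b : T ⊆ U ^ T.sup k := fun g hg =>
    Finset.pow_subset_pow_right u1 (Finset.le_sup hg) (hk g)
  refine ⟨C * (T.sup k + 1) ^ d, fun n => ?_⟩
  calc (T ^ n).card ≤ (U ^ (T.sup k * n)).card :=
        Finset.card_le_card (pow_mul U _ n ▸ Finset.pow_subset_pow_left b)
    _ ≤ C * (T.sup k * n + 1) ^ d := hC _
    _ ≤ C * ((T.sup k + 1) * (n + 1)) ^ d := by gcongr; nlinarith
    _ = _ := by rw [mul_pow, mul_assoc]

end Pool.Agent.Gromov
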