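import Pool.Agent.Lib.Gromov.Defs

/-! Nilpotent-by-cyclic groups of polynomial growth are virtually nilpotent. -/

set_option autoImplicit false

open scoped Pointwise Classical commutatorElement

namespace Pool.Agent.Gromov

open Subgroup

theorem nil_fg {G H : Type} [Group G] [Group H] (f : G →* H) (hf : Function.Surjective f)
    (h : ∀ K : Subgroup G, K.FG) (K : Subgroup H) : K.FG := by
  obtain ⟨S, hS⟩ := h (K.comap f)
  refine ⟨S.image f, ?_⟩
  rw [Finset.coe_image, ← MonoidHom.map_closure, hS, map_comap_eq_self_of_surjective hf]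

/-- one step of the descending chain inside the commutative normal subgroup. -/
theorem nil_step {G : Type} [Group G] (N Z A : Subgroup G) [Z.Normal] (s : G) (hZ : Z ≤ N)
    (hc : ∀ z ∈ Z, ∀ x ∈ N, z * x = x * z) (hA : A ≤ Z)
    (hs : ∀ x ∈ A, s * x * s⁻¹ ∈ A ∧ s⁻¹ * x * s ∈ A) :
    ∃ B : Subgroup G, B ≤ Z ∧ (∀ x ∈ B, s * x * s⁻¹ ∈ B ∧ s⁻¹ * x * s ∈ B) ∧
      (∀ x ∈ B, ∃ a ∈ A, s * a * s⁻¹ * a⁻¹ = x) ∧ ⁅A, N ⊔ zpowers s⁆ ≤ B := by
  have m : ∀ a ∈ A, s * a * s⁻¹ * a⁻¹ ∈ A := fun a ha => mul_mem (hs a ha).1 (inv_mem ha)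
  have cm : ∀ a ∈ A, ∀ b ∈ A, a * b = b * a := fun a ha b hb => hc a (hA ha) b (hZ (hA hb))
  let B : Subgroup G :=
    { carrier := {x | ∃ a ∈ A, s * a * s⁻¹ * a⁻¹ = x}
      one_mem' := ⟨1, one_mem _, by group⟩
      mul_mem' := by
        rintro _ _ ⟨a, ha, rfl⟩ ⟨b, hb, rfl⟩
        refine ⟨a * b, mul_mem ha hb, ?_⟩
        rw [mul_assoc _ a⁻¹, cm _ (inv_mem ha) _ (m b hb)]
        group
      inv_mem' := by
        rintro _ ⟨a, ha, rfl⟩
        refine ⟨a⁻¹, inv_mem ha, ?_⟩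
        rw [inv_inv, cm _ (hs _ (inv_mem ha)).1 a ha]
        group }
  have BA : B ≤ A := by
    rintro _ ⟨a, ha, rfl⟩
    exact m a ha
  refine ⟨B, BA.trans hA, ?_, fun x hx => hx, ?_⟩
  · rintro _ ⟨a, ha, rfl⟩
    exact ⟨⟨_, (hs a ha).1, by group⟩, ⟨_, (hs a ha).2, by group⟩⟩
  · rw [commutator_comm, commutator_le]
    intro l hl
    rw [zpowers_eq_closure, ← closure_eq N, ← Subgroup.closure_union] at hl
    induction hl using closure_induction'' with
    | mem x hx =>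
      intro a ha
      rcases hx with hx | rfl
      · rw [commutatorElement_def, ← hc a (hA ha) x hx]
        simp
      · exact ⟨a, ha, rfl⟩
    | inv_mem x hx =>
      intro a ha
      rcases hx with hx | rfl
      · rw [commutatorElement_def, ← hc a (hA ha) _ (inv_mem hx)]
        simp
      · refine (inv_mem_iff (H := B)).1 ⟨_, (hs a ha).2, ?_⟩
        rw [commutatorElement_def]
        group
    | one => intro a _; simp
    | mul x y _ _ hx hy =>
      intro a ha
      have h1 := hy a ha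
      have h2 : y * a * y⁻¹ ∈ A := by
        simpa [commutatorElement_def] using mul_mem (BA h1) ha
      have e : ⁅x * y, a⁆ = ⁅x, y * a * y⁻¹⁆ * ⁅y, a⁆ := by
        simp only [commutatorElement_def]
        group
      rw [e]
      exact mul_mem (hx _ h2) h1

theorem nil_aux (hK : KronS) (d c : ℕ) : ∀ (G : Type) [Group G], PG G d →
    (∀ K : Subgroup G, K.FG) → ∀ (N : Subgroup G) [N.Normal], N.lowerCentralSeries c = ⊥ →
    ∀ t : G, ∃ k : ℕ, 0 < k ∧ ∃ m, (N ⊔ zpowers (t ^ k)).lowerCentralSeries m = ⊥ := by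
  induction c with
  | zero =>
    intro G _ _ _ N _ hN t
    rw [Subgroup.lowerCentralSeries_zero] at hN
    refine ⟨1, one_pos, 1, ?_⟩
    rw [hN, bot_sup_eq, Subgroup.lowerCentralSeries_succ, Subgroup.lowerCentralSeries_zero,
      eq_bot_iff, commutator_le]
    rintro _ ⟨i, rfl⟩ _ ⟨j, rfl⟩
    exact mem_bot.2 (commutatorElement_eq_one_iff_commute.2 (Commute.zpow_zpow_self _ i j))
  | succ c ih =>
    intro G _ hG hF N _ hN t
    let Z := N.lowerCentralSeries c
    have hZ : Z ≤ N := lowerCentralSeries_le_self N c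
    have hc : ∀ z ∈ Z, ∀ x ∈ N, z * x = x * z := fun z hz x hx => by
      have : ⁅z, x⁆ ∈ N.lowerCentralSeries (c + 1) := commutator_mem_commutator hz hx
      rw [hN, mem_bot] at this
      exact commutatorElement_eq_one_iff_mul_comm.1 this
    let π := QuotientGroup.mk' Z
    have hπ : Function.Surjective π := QuotientGroup.mk'_surjective Z
    have : (N.map π).Normal := Normal.map inferInstance π hπ
    obtain ⟨k1, p1, m, hm⟩ := ih (G ⧸ Z) (hG.quot Z) (nil_fg π hπ hF) (N.map π)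
      (by rw [← map_lowerCentralSeries, Subgroup.map_eq_bot_iff, QuotientGroup.ker_mk']) (π t)
    obtain ⟨k2, r, p2, hr⟩ := hK d G hG Z (hF Z) (fun a ha b hb => hc a ha b (hZ hb)) (t ^ k1)
    rw [← pow_mul] at hr
    refine ⟨k1 * k2, Nat.mul_pos p1 p2, m + r, ?_⟩
    generalize hs : t ^ (k1 * k2) = s at hr ⊢
    have h0 : (N ⊔ zpowers s).lowerCentralSeries m ≤ Z := by
      refine le_trans (lowerCentralSeries_mono m (sup_le_sup_left (zpowers_le.2 (show s ∈
        zpowers (t ^ k1) from hs ▸ pow_mul t k1 k2 ▸ npow_mem_zpowers _ _)) N)) ?_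
      rw [← map_pow, ← MonoidHom.map_zpowers, ← Subgroup.map_sup, ← map_lowerCentralSeries,
        Subgroup.map_eq_bot_iff, QuotientGroup.ker_mk'] at hm
      exact hm
    have key : ∀ j, ∃ A : Subgroup G, A ≤ Z ∧ (∀ x ∈ A, s * x * s⁻¹ ∈ A ∧ s⁻¹ * x * s ∈ A) ∧
        (∀ x ∈ A, ∃ z ∈ Z, (fun x => s * x * s⁻¹ * x⁻¹)^[j] z = x) ∧
        (N ⊔ zpowers s).lowerCentralSeries (m + j) ≤ A := by
      intro j
      induction j with
      | zero =>
        exact ⟨Z, le_rfl, fun x hx => ⟨Normal.conj_mem inferInstance x hx s,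
          Normal.conj_mem' inferInstance x hx s⟩, fun x hx => ⟨x, hx, rfl⟩, h0⟩
      | succ j ihj =>
        obtain ⟨A, a1, a2, a3, a4⟩ := ihj
        obtain ⟨B, b1, b2, b3, b4⟩ := nil_step N Z A s hZ hc a1 a2
        refine ⟨B, b1, b2, fun x hx => ?_, (commutator_mono a4 le_rfl).trans b4⟩
        obtain ⟨a, ha, rfl⟩ := b3 x hx
        obtain ⟨z, hz, rfl⟩ := a3 a ha
        exact ⟨z, hz, Function.iterate_succ_apply' _ _ _⟩
    obtain ⟨A, -, -, a3, a4⟩ := key r
    refine eq_bot_iff.2 fun x hx => ?_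
    obtain ⟨z, hz, rfl⟩ := a3 x (a4 hx)
    exact hr z hz

theorem nilS (hK : KronS) : NilS := by
  intro d G _ hG hF N _ hN t
  obtain ⟨c, hc⟩ := (isNilpotent_iff_lowerCentralSeries N).1 hN
  obtain ⟨k, hk, hm⟩ := nil_aux hK d c G hG hF N hc t
  exact ⟨k, hk, (isNilpotent_iff_lowerCentralSeries _).2 hm⟩

end Pool.Agent.Gromov
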