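import Mathlib
import Pool.Agent.Lib.Gromov.Defs

/-! Block R: the representation on Lipschitz harmonic functions. -/

set_option autoImplicit false

open scoped Pointwise Classical

namespace Pool.Agent.Gromov

namespace Rep

theorem bessel {V : Type} [NormedAddCommGroup V] [InnerProductSpace ℂ V] (l : V →ₗ[ℂ] ℂ)
    (K : ℝ) (h : ∀ u, ‖l u‖ ^ 2 ≤ K * ‖u‖ ^ 2) {n : ℕ} (v : Fin n → V) (hv : Orthonormal ℂ v) :
    ∑ i, ‖l (v i)‖ ^ 2 ≤ |K| := by
  set A : ℝ := ∑ i, ‖l (v i)‖ ^ 2 with hA
  have hA0 : 0 ≤ A := Finset.sum_nonneg fun i _ => by positivity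
  set w : V := ∑ i, (starRingEnd ℂ) (l (v i)) • v i with hw
  have h1 : l w = (A : ℂ) := by
    rw [hw, map_sum, hA]
    push_cast
    refine Finset.sum_congr rfl fun i _ => ?_
    rw [map_smul, smul_eq_mul, Complex.conj_mul']
  have h2 : inner ℂ w w = (A : ℂ) := by
    rw [hw, hv.inner_sum, hA]
    push_cast
    refine Finset.sum_congr rfl fun i _ => ?_
    rw [Complex.conj_conj, Complex.mul_conj']
  have h3 : ‖w‖ ^ 2 = A := by
    rw [@norm_sq_eq_re_inner ℂ, h2]
    simp
  have h4 := h w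
  rw [h1, h3, Complex.norm_real, Real.norm_eq_abs, sq_abs] at h4
  rcases hA0.eq_or_lt with h0 | h0
  · rw [← h0]; exact abs_nonneg K
  · have : A ≤ K := by nlinarith
    exact this.trans (le_abs_self K)

theorem fin_of_bound {V : Type} [NormedAddCommGroup V] [InnerProductSpace ℂ V] (B : ℝ)
    (h : ∀ (n : ℕ) (v : Fin n → V), Orthonormal ℂ v → (n : ℝ) ≤ B) : FiniteDimensional ℂ V := by
  by_contra hf
  obtain ⟨n, hn⟩ := exists_nat_gt B
  have h1 : (n : Cardinal) ≤ Module.rank ℂ V := by
    have : Cardinal.aleph0 ≤ Module.rank ℂ V := by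
      by_contra h2
      exact hf (Module.rank_lt_aleph0_iff.1 (not_le.1 h2))
    exact (Cardinal.natCast_lt_aleph0 (n := n)).le.trans this
  obtain ⟨f, hf'⟩ := exists_linearIndependent_of_le_rank h1
  have := h n _ (InnerProductSpace.gramSchmidtNormed_orthonormal hf')
  linarith

variable {G : Type} [Group G]

/-- normalised Lipschitz harmonic functions -/
def W (S : Finset G) : Submodule ℂ (G → ℂ) where
  carrier := {u | Harm S u ∧ Lip S u ∧ u 1 = 0}
  zero_mem' := ⟨fun x => by simp, ⟨0, fun x s _ => by simp⟩, rfl⟩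
  add_mem' := by
    rintro u v ⟨h1, ⟨L, h2⟩, h3⟩ ⟨k1, ⟨L', k2⟩, k3⟩
    refine ⟨fun x => ?_, ⟨L + L', fun x s hs => ?_⟩, by simp [h3, k3]⟩
    · simp only [Pi.add_apply, Finset.sum_add_distrib, h1 x, k1 x]
      ring
    · have e : (u + v) (x * s) - (u + v) x = (u (x * s) - u x) + (v (x * s) - v x) := by
        simp only [Pi.add_apply]; ring
      rw [e]
      exact (norm_add_le _ _).trans (add_le_add (h2 x s hs) (k2 x s hs))
  smul_mem' := by
    rintro c u ⟨h1, ⟨L, h2⟩, h3⟩
    refine ⟨fun x => ?_, ⟨‖c‖ * L, fun x s hs => ?_⟩, by simp [h3]⟩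
    · simp only [Pi.smul_apply, smul_eq_mul, ← Finset.mul_sum, h1 x]
      ring
    · have e : (c • u) (x * s) - (c • u) x = c * (u (x * s) - u x) := by
        simp only [Pi.smul_apply, smul_eq_mul]; ring
      rw [e, norm_mul]
      exact mul_le_mul_of_nonneg_left (h2 x s hs) (norm_nonneg c)

/-- the carrier of the representation -/
def V (S : Finset G) : Type := W S

noncomputable instance (S : Finset G) : AddCommGroup (V S) := inferInstanceAs (AddCommGroup (W S))

noncomputable instance (S : Finset G) : Module ℂ (V S) := inferInstanceAs (Module ℂ (W S))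

/-- the underlying function -/
def fn {S : Finset G} (u : V S) : G → ℂ := (u : W S).1

theorem fn_add {S : Finset G} (u v : V S) : fn (u + v) = fn u + fn v := rfl

theorem fn_smul {S : Finset G} (c : ℂ) (u : V S) : fn (c • u) = c • fn u := rfl

theorem fn_zero {S : Finset G} : fn (0 : V S) = 0 := rfl

theorem fn_ext {S : Finset G} {u v : V S} (h : ∀ x, fn u x = fn v x) : u = v :=
  Subtype.ext (funext h)

theorem fn_harm {S : Finset G} (u : V S) : Harm S (fn u) := (u : W S).2.1

theorem fn_lip {S : Finset G} (u : V S) : Lip S (fn u) := (u : W S).2.2.1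

theorem fn_one {S : Finset G} (u : V S) : fn u 1 = 0 := (u : W S).2.2.2

theorem gam_bdd {S : Finset G} {u v : G → ℂ} (hu : Lip S u) (hv : Lip S v) :
    Bdd (Gam S u v) := by
  obtain ⟨L, h⟩ := hu
  obtain ⟨L', h'⟩ := hv
  refine ⟨‖(S.card : ℂ)⁻¹‖ * ∑ _s ∈ S, L * L', fun x => ?_⟩
  unfold Gam
  rw [norm_mul]
  refine mul_le_mul_of_nonneg_left ((norm_sum_le _ _).trans (Finset.sum_le_sum fun s hs => ?_))
    (norm_nonneg _)
  rw [norm_mul, norm_star]
  exact mul_le_mul (h x s hs) (h' x s hs) (norm_nonneg _) ((norm_nonneg _).trans (h x s hs))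

theorem gam_re (S : Finset G) (u : G → ℂ) (x : G) :
    (Gam S u u x).re = (S.card : ℝ)⁻¹ * ∑ s ∈ S, ‖u (x * s) - u x‖ ^ 2 := by
  have e : Gam S u u x = (((S.card : ℝ)⁻¹ * ∑ s ∈ S, ‖u (x * s) - u x‖ ^ 2 : ℝ) : ℂ) := by
    unfold Gam
    push_cast
    congr 1
    refine Finset.sum_congr rfl fun s _ => ?_
    exact Complex.conj_mul' _
  rw [e, Complex.ofReal_re]

theorem harm_shift {S : Finset G} {u : G → ℂ} (h : Harm S u) (g : G) (c : ℂ) :
    Harm S fun x => u (g * x) - c := by
  intro x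
  have := h (g * x)
  simp only [Finset.sum_sub_distrib, Finset.sum_const, nsmul_eq_mul, ← mul_assoc, this]
  ring

theorem lip_shift {S : Finset G} {u : G → ℂ} (h : Lip S u) (g : G) (c : ℂ) :
    Lip S fun x => u (g * x) - c := by
  obtain ⟨L, h⟩ := h
  refine ⟨L, fun x s hs => ?_⟩
  have := h (g * x) s hs
  simpa only [sub_sub_sub_cancel_right, ← mul_assoc] using this

theorem gam_shift (S : Finset G) (u v : G → ℂ) (g : G) (c c' : ℂ) :
    Gam S (fun x => u (g * x) - c) (fun x => v (g * x) - c') = fun x => Gam S u v (g * x) := by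
  funext x
  simp only [Gam, sub_sub_sub_cancel_right, ← mul_assoc]

variable {S : Finset G} {Λ : (G → ℂ) → ℂ} {K : ℝ}

theorem low' (hm : Mean S Λ K) {u : G → ℂ} (h1 : Harm S u) (h2 : Lip S u) (x : G) {s : G}
    (hs : s ∈ S) : ‖u (x * s) - u x‖ ^ 2 ≤ K * (Λ (Gam S u u)).re := by
  have := hm.low _ (harm_shift h1 x 0) (lip_shift h2 x 0) s hs
  rw [gam_shift, hm.inv _ x (gam_bdd h2 h2)] at this
  simpa using this

theorem bdd_zero : Bdd (0 : G → ℂ) := ⟨0, fun _ => by simp⟩

theorem bdd_add {F F' : G → ℂ} (h : Bdd F) (h' : Bdd F') : Bdd (F + F') := by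
  obtain ⟨M, h⟩ := h
  obtain ⟨M', h'⟩ := h'
  exact ⟨M + M', fun x => (norm_add_le _ _).trans (add_le_add (h x) (h' x))⟩

theorem mean_sum (hm : Mean S Λ K) {ι : Type} (T : Finset ι) (F : ι → G → ℂ)
    (h : ∀ i, Bdd (F i)) : Bdd (∑ i ∈ T, F i) ∧ Λ (∑ i ∈ T, F i) = ∑ i ∈ T, Λ (F i) := by
  induction T using Finset.induction_on with
  | empty =>
    refine ⟨by simpa using bdd_zero, ?_⟩
    have := hm.smul 0 0 bdd_zero
    simpa using this
  | insert a T ha ih =>
    rw [Finset.sum_insert ha, Finset.sum_insert ha]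
    exact ⟨bdd_add (h a) ih.1, by rw [hm.add _ _ (h a) ih.1, ih.2]⟩

/-- the energy inner product -/
@[reducible] noncomputable def core (hS : Gen S) (hm : Mean S Λ K) :
    InnerProductSpace.Core ℂ (V S) where
  inner u v := Λ (Gam S (fn u) (fn v))
  conj_inner_symm u v := by
    have e : Gam S (fn u) (fn v) = star (Gam S (fn v) (fn u)) := by
      funext x
      simp only [Gam, Pi.star_apply, star_mul', star_sum, star_star, star_inv₀, star_natCast]
      congr 1
      exact Finset.sum_congr rfl fun s _ => mul_comm _ _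
    rw [e, hm.conj _ (gam_bdd (fn_lip v) (fn_lip u))]
    rfl
  re_inner_nonneg u := by
    have hb := gam_bdd (fn_lip u) (fn_lip u)
    have h1 := hm.smul (-1) _ hb
    have hb' : Bdd ((-1 : ℂ) • Gam S (fn u) (fn u)) := by
      obtain ⟨M, h⟩ := hb
      exact ⟨M, fun x => by simpa using h x⟩
    have h2 := hm.le _ 0 hb' fun x => by
      have : 0 ≤ (Gam S (fn u) (fn u) x).re := by rw [gam_re]; positivity
      simpa using this
    rw [h1] at h2
    simpa using h2
  add_left u v w := by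
    have e : Gam S (fn (u + v)) (fn w) = Gam S (fn u) (fn w) + Gam S (fn v) (fn w) := by
      funext x
      simp only [Gam, fn_add, Pi.add_apply, ← mul_add, ← Finset.sum_add_distrib]
      congr 1
      refine Finset.sum_congr rfl fun s _ => ?_
      simp only [star_sub, star_add]
      ring
    rw [e, hm.add _ _ (gam_bdd (fn_lip u) (fn_lip w)) (gam_bdd (fn_lip v) (fn_lip w))]
  smul_left u v c := by
    have e : Gam S (fn (c • u)) (fn v) = (starRingEnd ℂ) c • Gam S (fn u) (fn v) := by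
      funext x
      simp only [Gam, fn_smul, Pi.smul_apply, smul_eq_mul, Finset.mul_sum]
      refine Finset.sum_congr rfl fun s _ => ?_
      simp only [star_sub, star_mul', starRingEnd_apply]
      ring
    rw [e, hm.smul _ _ (gam_bdd (fn_lip u) (fn_lip v))]
  definite u hu := by
    have h0 : ∀ x, ∀ s ∈ S, fn u (x * s) = fn u x := by
      intro x s hs
      have := low' hm (fn_harm u) (fn_lip u) x hs
      have hu' : Λ (Gam S (fn u) (fn u)) = 0 := hu
      rw [hu'] at this
      have h3 : ‖fn u (x * s) - fn u x‖ ^ 2 = 0 := le_antisymm (by simpa using this) (by positivity)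
      exact sub_eq_zero.1 (norm_eq_zero.1 (pow_eq_zero_iff two_ne_zero |>.1 h3))
    have h1 : ∀ y ∈ Subgroup.closure (S : Set G), ∀ x, fn u (x * y) = fn u x := by
      intro y hy
      induction hy using Subgroup.closure_induction with
      | mem s hs => exact fun x => h0 x s hs
      | one => simp
      | mul a b _ _ ha hb => intro x; rw [← mul_assoc, hb, ha]
      | inv a _ ha => intro x; rw [← ha (x * a⁻¹)]; simp
    refine fn_ext fun x => ?_
    have := h1 x (by rw [hS.2.2]; trivial) 1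
    rw [one_mul, fn_one] at this
    rw [this, fn_zero]
    rfl

/-- translation, normalised at the identity -/
def act (S : Finset G) (g : G) : V S →ₗ[ℂ] V S where
  toFun u := (⟨fun x => fn u (g⁻¹ * x) - fn u g⁻¹, harm_shift (fn_harm u) _ _,
    lip_shift (fn_lip u) _ _, by simp⟩ : W S)
  map_add' u v := fn_ext fun x => by
    change fn (u + v) (g⁻¹ * x) - fn (u + v) g⁻¹ =
      (fn u (g⁻¹ * x) - fn u g⁻¹) + (fn v (g⁻¹ * x) - fn v g⁻¹)
    simp only [fn_add, Pi.add_apply]
    ring
  map_smul' c u := fn_ext fun x => by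
    change fn (c • u) (g⁻¹ * x) - fn (c • u) g⁻¹ = c * (fn u (g⁻¹ * x) - fn u g⁻¹)
    simp only [fn_smul, Pi.smul_apply, smul_eq_mul]
    ring

theorem fn_act (g : G) (u : V S) : fn (act S g u) = fun x => fn u (g⁻¹ * x) - fn u g⁻¹ := rfl

theorem act_mul (g h : G) (u : V S) : act S (g * h) u = act S g (act S h u) :=
  fn_ext fun x => by
    simp only [fn_act, mul_inv_rev, mul_assoc]
    ring

theorem act_one (u : V S) : act S 1 u = u := fn_ext fun x => by simp [fn_act, fn_one]

/-- translation as a linear equivalence -/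
noncomputable def actE (S : Finset G) (g : G) : V S ≃ₗ[ℂ] V S :=
  LinearEquiv.ofLinearMap (act S g) (act S g⁻¹)
    (LinearMap.ext fun u => by simp [← act_mul, act_one])
    (LinearMap.ext fun u => by simp [← act_mul, act_one])

/-- the increment along an edge -/
def inc (S : Finset G) (x s : G) : V S →ₗ[ℂ] ℂ where
  toFun u := fn u (x * s) - fn u x
  map_add' u v := by simp only [fn_add, Pi.add_apply]; ring
  map_smul' c u := by simp only [fn_smul, Pi.smul_apply, smul_eq_mul, RingHom.id_apply]; ring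

theorem exists_gen (G : Type) [Group G] [Group.FG G] : ∃ S : Finset G, Gen S := by
  obtain ⟨T, hT⟩ := (Group.fg_def.1 ‹Group.FG G›)
  refine ⟨insert 1 (T ∪ T⁻¹), Finset.mem_insert_self _ _, fun s hs => ?_, ?_⟩
  · simp only [Finset.mem_insert, Finset.mem_union, Finset.mem_inv', inv_eq_one, inv_inv] at hs ⊢
    tauto
  · refine top_le_iff.1 (hT ▸ Subgroup.closure_mono fun x hx => ?_)
    simp only [Finset.coe_insert, Finset.coe_union, Set.mem_insert_iff, Set.mem_union]
    exact Or.inr (Or.inl hx)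

end Rep

open _root_.Pool.Agent.Gromov.Rep in
theorem repS (hM : MeanS) (hE : ExS) : RepS := by
  intro d G _ _ _ hG
  obtain ⟨S, hS⟩ := exists_gen G
  obtain ⟨Λ, K, hm⟩ := hM d G S hS hG
  obtain ⟨u0, hu1, hu2, x0, hx0⟩ := hE d G S hS hG
  letI c : InnerProductSpace.Core ℂ (V S) := core hS hm
  letI n : NormedAddCommGroup (V S) := InnerProductSpace.Core.toNormedAddCommGroup (𝕜 := ℂ)
  letI ip : InnerProductSpace ℂ (V S) := InnerProductSpace.ofCore c.toCore
  have hin : ∀ u v : V S, inner ℂ u v = Λ (Gam S (fn u) (fn v)) := fun _ _ => rfl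
  have hpos : (0 : ℝ) < S.card := by exact_mod_cast Finset.card_pos.2 ⟨1, hS.1⟩
  have hfd : FiniteDimensional ℂ (V S) := by
    refine fin_of_bound |K| fun k v hv => ?_
    have hb := mean_sum hm Finset.univ (fun i => Gam S (fn (v i)) (fn (v i)))
      fun i => gam_bdd (fn_lip _) (fn_lip _)
    have h1 := hm.le _ |K| hb.1 fun x => by
      rw [Finset.sum_apply, Complex.re_sum]
      simp only [gam_re]
      rw [← Finset.mul_sum, Finset.sum_comm]
      have h2 : ∑ s ∈ S, ∑ i, ‖fn (v i) (x * s) - fn (v i) x‖ ^ 2 ≤ ∑ _s ∈ S, |K| :=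
        Finset.sum_le_sum fun s hs => bessel (inc S x s) K (fun u => by
          rw [norm_sq_eq_re_inner (𝕜 := ℂ) u, hin]
          exact low' hm (fn_harm u) (fn_lip u) x hs) v hv
      rw [Finset.sum_const, nsmul_eq_mul] at h2
      rw [inv_mul_le_iff₀ hpos]
      exact h2
    rw [hb.2] at h1
    have h3 : ∀ i, Λ (Gam S (fn (v i)) (fn (v i))) = 1 := fun i => by
      rw [← hin, inner_self_eq_norm_sq_to_K, hv.1 i]
      simp
    simpa [h3] using h1
  let iso : G → (V S ≃ₗᵢ[ℂ] V S) := fun g => (actE S g).isometryOfInner fun u v => by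
    rw [hin, hin]
    change Λ (Gam S (fn (act S g u)) (fn (act S g v))) = _
    rw [fn_act, fn_act, gam_shift, hm.inv _ _ (gam_bdd (fn_lip u) (fn_lip v))]
  have hiso : ∀ g u, iso g u = act S g u := fun _ _ => rfl
  let ρ : G →* (V S ≃ₗᵢ[ℂ] V S) := MonoidHom.mk' iso fun g h =>
    LinearIsometryEquiv.ext fun u => by
      rw [LinearIsometryEquiv.coe_mul, Function.comp_apply, hiso, hiso, hiso, act_mul]
  refine ⟨V S, n, ip, hfd, ρ, fun hfi => ?_⟩
  let u : V S := (⟨fun x => u0 (1 * x) - u0 1, harm_shift hu1 _ _, lip_shift hu2 _ _,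
    by simp⟩ : W S)
  have hu : ∀ x, fn u x = u0 x - u0 1 := fun x => by
    change u0 (1 * x) - u0 1 = _
    rw [one_mul]
  have hk : ∀ g ∈ ρ.ker, ∀ x, fn u (g * x) = fn u g + fn u x := by
    intro g hg x
    have h1 : iso g⁻¹ = 1 := ρ.ker.inv_mem hg
    have h2 : act S g⁻¹ u = u := by rw [← hiso, h1]; rfl
    have h3 := congrFun (fn_act g⁻¹ u) x
    rw [h2, inv_inv] at h3
    rw [h3]
    ring
  refine ⟨MonoidHom.mk' (fun g => Multiplicative.ofAdd (fn u g.1)) fun g h => ?_, fun h1 => ?_⟩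
  · rw [← ofAdd_add, Subgroup.coe_mul, hk g.1 g.2]
  · have h2 : ∀ g ∈ ρ.ker, fn u g = 0 := fun g hg => by
      have := DFunLike.congr_fun h1 ⟨g, hg⟩
      simpa using this
    have h3 : ∀ x, fn u (QuotientGroup.mk x : G ⧸ ρ.ker).out = fn u x := by
      intro x
      obtain ⟨h, hh⟩ := QuotientGroup.mk_out_eq_mul ρ.ker x
      have hc : x * h * x⁻¹ ∈ ρ.ker := (inferInstance : ρ.ker.Normal).conj_mem _ h.2 x
      have := hk _ hc x
      rw [h2 _ hc, zero_add, inv_mul_cancel_right] at this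
      rw [hh, this]
    have hb : Bdd (fn u) := by
      obtain ⟨M, hM⟩ := Finite.bddAbove_range fun q : G ⧸ ρ.ker => ‖fn u q.out‖
      exact ⟨M, fun x => by rw [← h3 x]; exact hM ⟨_, rfl⟩⟩
    have h4 := hm.liou _ (fn_harm u) hb x0
    rw [fn_one, hu] at h4
    exact hx0 (sub_eq_zero.1 h4)

end Pool.Agent.Gromov
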