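import Pool.Agent.Lib.Gromov.Defs

/-! Random walk, entropy inequality and good times. -/

set_option autoImplicit false

open scoped Pointwise Classical

namespace Pool.Agent.Gromov.W

variable {G : Type} [Group G]

noncomputable def lam (s : G) : (G →₀ ℝ) →ₗ[ℝ] (G →₀ ℝ) := Finsupp.lmapDomain ℝ ℝ (fun x => s * x)

theorem lam_apply (s : G) (φ : G →₀ ℝ) (x : G) : lam s φ x = φ (s⁻¹ * x) := by
  have h : x = (fun y => s * y) (s⁻¹ * x) := by simp
  conv_lhs => rw [h]
  exact Finsupp.mapDomain_apply (mul_right_injective s) _ _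

noncomputable def pw (S : Finset G) : ℕ → (G →₀ ℝ)
  | 0 => Finsupp.single 1 1
  | n + 1 => (S.card : ℝ)⁻¹ • ∑ s ∈ S, lam s (pw S n)

theorem pw_succ_apply (S : Finset G) (n : ℕ) (x : G) :
    pw S (n + 1) x = (S.card : ℝ)⁻¹ * ∑ s ∈ S, pw S n (s⁻¹ * x) := by
  simp [pw, lam_apply]

theorem pw_nonneg (S : Finset G) (n : ℕ) (x : G) : 0 ≤ pw S n x := by
  induction n generalizing x with
  | zero => simp only [pw, Finsupp.single_apply]; split_ifs <;> norm_num
  | succ n ih =>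
    rw [pw_succ_apply]
    exact mul_nonneg (by positivity) (Finset.sum_nonneg fun s _ => ih _)

theorem pw_zero_of (S : Finset G) (n : ℕ) (x : G) (hx : x ∉ S ^ n) : pw S n x = 0 := by
  induction n generalizing x with
  | zero =>
    simp only [pow_zero, Finset.mem_one] at hx
    simp [pw, Finsupp.single_apply, Ne.symm hx]
  | succ n ih =>
    rw [pw_succ_apply, Finset.sum_eq_zero, mul_zero]
    intro s hs
    apply ih
    intro h
    apply hx
    rw [pow_succ']
    exact Finset.mem_mul.2 ⟨s, hs, _, h, by simp⟩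

theorem pw_supp (S : Finset G) (n : ℕ) : (pw S n).support ⊆ S ^ n := by
  intro x hx
  by_contra h
  exact (Finsupp.mem_support_iff.1 hx) (pw_zero_of S n x h)

theorem lam_pw_supp (S : Finset G) (n : ℕ) {t : G} (ht : t ∈ S) :
    (lam t (pw S n)).support ⊆ S ^ (n + 1) := by
  intro x hx
  rw [Finsupp.mem_support_iff, lam_apply] at hx
  have : t⁻¹ * x ∈ S ^ n := by
    by_contra h
    exact hx (pw_zero_of S n _ h)
  rw [pow_succ']
  exact Finset.mem_mul.2 ⟨t, ht, _, this, by simp⟩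

section pair
variable {E : Type} [AddCommGroup E] [Module ℝ E]

noncomputable def pair (φ : G →₀ ℝ) (f : G → E) : E := Finsupp.linearCombination ℝ f φ

omit [Group G] in
theorem pair_eq (φ : G →₀ ℝ) (f : G → E) {T : Finset G} (h : φ.support ⊆ T) :
    pair φ f = ∑ x ∈ T, φ x • f x := by
  rw [pair, Finsupp.linearCombination_apply, Finsupp.sum_of_support_subset _ h]
  intro x _
  simp

theorem pair_lam (s : G) (φ : G →₀ ℝ) (f : G → E) :
    pair (lam s φ) f = pair φ (fun y => f (s * y)) := by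
  simp only [pair, lam, Finsupp.lmapDomain_apply, Finsupp.linearCombination_mapDomain]
  rfl

noncomputable def EE (S : Finset G) (n : ℕ) (f : G → E) : E := pair (pw S n) f

theorem EE_eq (S : Finset G) (n : ℕ) (f : G → E) :
    EE S n f = ∑ x ∈ S ^ n, pw S n x • f x := pair_eq _ _ (pw_supp S n)

theorem EE_zero (S : Finset G) (f : G → E) : EE S 0 f = f 1 := by
  simp [EE, pair, pw]

theorem EE_left (S : Finset G) (n : ℕ) (f : G → E) :
    EE S (n + 1) f = (S.card : ℝ)⁻¹ • ∑ s ∈ S, EE S n (fun y => f (s * y)) := by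
  simp only [EE, ← pair_lam]
  simp [pair, pw, map_sum]

theorem EE_add (S : Finset G) (n : ℕ) (f g : G → E) :
    EE S n (fun x => f x + g x) = EE S n f + EE S n g := by
  simp [EE_eq, Finset.sum_add_distrib]

theorem EE_right (S : Finset G) (n : ℕ) (f : G → E) :
    EE S (n + 1) f = EE S n (fun x => (S.card : ℝ)⁻¹ • ∑ s ∈ S, f (x * s)) := by
  induction n generalizing f with
  | zero => simp [EE_left, EE_zero]
  | succ n ih =>
    rw [EE_left, EE_left]
    congr 1
    refine Finset.sum_congr rfl fun s _ => ?_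
    rw [ih]
    simp only [mul_assoc]

theorem EE_const {S : Finset G} (hS : S.Nonempty) (n : ℕ) (c : E) : EE S n (fun _ => c) = c := by
  have h : (S.card : ℝ) ≠ 0 := by exact_mod_cast hS.card_pos.ne'
  induction n with
  | zero => simp [EE_zero]
  | succ n ih =>
    rw [EE_left]
    simp only [ih, Finset.sum_const]
    rw [← Nat.cast_smul_eq_nsmul ℝ, smul_smul, inv_mul_cancel₀ h, one_smul]

end pair

theorem pw_sum {S : Finset G} (hS : S.Nonempty) (n : ℕ) : ∑ x ∈ S ^ n, pw S n x = 1 := by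
  have := EE_const hS n (1 : ℝ)
  simpa [EE_eq] using this

theorem EE_mono (S : Finset G) (n : ℕ) {f g : G → ℝ} (h : ∀ x, f x ≤ g x) :
    EE S n f ≤ EE S n g := by
  simp only [EE_eq, smul_eq_mul]
  exact Finset.sum_le_sum fun x _ => mul_le_mul_of_nonneg_left (h x) (pw_nonneg S n x)

theorem EE_re (S : Finset G) (n : ℕ) (f : G → ℂ) : (EE S n f).re = EE S n (fun x => (f x).re) := by
  simp [EE_eq, Complex.re_sum]

theorem EE_norm {S : Finset G} (hS : S.Nonempty) (n : ℕ) {f : G → ℂ} {M : ℝ}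
    (h : ∀ x, ‖f x‖ ≤ M) : ‖EE S n f‖ ≤ M := by
  calc ‖EE S n f‖ ≤ ∑ x ∈ S ^ n, ‖pw S n x • f x‖ := by rw [EE_eq]; exact norm_sum_le _ _
    _ ≤ ∑ x ∈ S ^ n, pw S n x * M := by
      refine Finset.sum_le_sum fun x _ => ?_
      rw [norm_smul, Real.norm_of_nonneg (pw_nonneg S n x)]
      exact mul_le_mul_of_nonneg_left (h x) (pw_nonneg S n x)
    _ = M := by rw [← Finset.sum_mul, pw_sum hS, one_mul]

theorem EE_harm {S : Finset G} (hS : S.Nonempty) {u : G → ℂ} (hu : Harm S u) (n : ℕ) :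
    EE S n u = u 1 := by
  have h : (S.card : ℂ) ≠ 0 := by exact_mod_cast hS.card_pos.ne'
  induction n with
  | zero => exact EE_zero S u
  | succ n ih =>
    rw [EE_right, ← ih]
    congr 1
    funext x
    rw [hu x, Complex.real_smul]
    push_cast
    field_simp

theorem kl (a m : ℝ) (ha : 0 ≤ a) (hm : 0 ≤ m) (h : m = 0 → a = 0) :
    (√a - √m) ^ 2 ≤ a * Real.log a - a * Real.log m - a + m := by
  rcases ha.eq_or_lt with rfl | ha'
  · simp [Real.sq_sqrt hm]
  have hm' : 0 < m := lt_of_le_of_ne hm fun e => ha'.ne' (h e.symm)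
  obtain ⟨x, hx, rfl⟩ : ∃ x, 0 < x ∧ a = x ^ 2 := ⟨√a, Real.sqrt_pos.2 ha', (Real.sq_sqrt ha).symm⟩
  obtain ⟨y, hy, rfl⟩ : ∃ y, 0 < y ∧ m = y ^ 2 := ⟨√m, Real.sqrt_pos.2 hm', (Real.sq_sqrt hm).symm⟩
  rw [Real.sqrt_sq hx.le, Real.sqrt_sq hy.le, Real.log_pow, Real.log_pow]
  have h1 := Real.one_sub_inv_le_log_of_pos (div_pos hx hy)
  rw [Real.log_div hx.ne' hy.ne', inv_div] at h1
  have h2 : x ^ 2 * (1 - y / x) ≤ x ^ 2 * (Real.log x - Real.log y) :=
    mul_le_mul_of_nonneg_left h1 (sq_nonneg x)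
  have h3 : x ^ 2 * (1 - y / x) = x ^ 2 - x * y := by field_simp
  push_cast
  nlinarith

/-- entropy -/
noncomputable def ent (φ : G →₀ ℝ) : ℝ := φ.sum fun _ a => -(a * Real.log a)

omit [Group G] in
theorem ent_eq (φ : G →₀ ℝ) {T : Finset G} (h : φ.support ⊆ T) :
    ent φ = ∑ x ∈ T, -(φ x * Real.log (φ x)) := by
  rw [ent, Finsupp.sum_of_support_subset _ h]
  intro x _
  simp

theorem ent_lam (s : G) (φ : G →₀ ℝ) : ent (lam s φ) = ent φ := by
  simp only [ent, lam, Finsupp.lmapDomain_apply]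
  exact Finsupp.sum_mapDomain_index_inj (mul_right_injective s)

noncomputable def DD (S : Finset G) (n : ℕ) : ℝ := ent (pw S (n + 1)) - ent (pw S n)

theorem DD_ge {S : Finset G} (hS : S.Nonempty) (n : ℕ) :
    ∑ t ∈ S, ∑ x ∈ S ^ (n + 1), (√(lam t (pw S n) x) - √(pw S (n + 1) x)) ^ 2 ≤
      S.card * DD S n := by
  have hc : (0 : ℝ) < S.card := by exact_mod_cast hS.card_pos
  have hm : ∀ x, ∑ t ∈ S, lam t (pw S n) x = S.card * pw S (n + 1) x := by
    intro x
    rw [pw_succ_apply]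
    simp only [lam_apply]
    field_simp
  have hq : ∀ t x, 0 ≤ lam t (pw S n) x := fun t x => by rw [lam_apply]; exact pw_nonneg _ _ _
  have e1 : (S.card : ℝ) * ent (pw S n) =
      ∑ t ∈ S, ∑ x ∈ S ^ (n + 1), -(lam t (pw S n) x * Real.log (lam t (pw S n) x)) := by
    rw [← nsmul_eq_mul, ← Finset.sum_const]
    refine Finset.sum_congr rfl fun t ht => ?_
    rw [← ent_eq _ (lam_pw_supp S n ht), ent_lam]
  rw [DD, mul_sub, e1, ent_eq _ (pw_supp S (n + 1)), Finset.sum_comm,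
    Finset.sum_comm (s := S), Finset.mul_sum, ← Finset.sum_sub_distrib]
  refine Finset.sum_le_sum fun x _ => ?_
  have h1 : ∑ t ∈ S, (√(lam t (pw S n) x) - √(pw S (n + 1) x)) ^ 2 ≤
      ∑ t ∈ S, (lam t (pw S n) x * Real.log (lam t (pw S n) x) -
        lam t (pw S n) x * Real.log (pw S (n + 1) x) - lam t (pw S n) x + pw S (n + 1) x) := by
    refine Finset.sum_le_sum fun t ht => kl _ _ (hq t x) (pw_nonneg _ _ _) fun h0 => ?_
    have h2 := hm x
    rw [h0, mul_zero] at h2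
    exact (Finset.sum_eq_zero_iff_of_nonneg fun t _ => hq t x).1 h2 t ht
  refine h1.trans (le_of_eq ?_)
  simp only [Finset.sum_add_distrib, Finset.sum_sub_distrib, ← Finset.sum_mul, hm,
    Finset.sum_const, nsmul_eq_mul, Finset.sum_neg_distrib]
  ring

theorem DD_nonneg {S : Finset G} (hS : S.Nonempty) (n : ℕ) : 0 ≤ DD S n := by
  have hc : (0 : ℝ) < S.card := by exact_mod_cast hS.card_pos
  have h := DD_ge hS n
  have h0 : 0 ≤ ∑ t ∈ S, ∑ x ∈ S ^ (n + 1), (√(lam t (pw S n) x) - √(pw S (n + 1) x)) ^ 2 :=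
    Finset.sum_nonneg fun t _ => Finset.sum_nonneg fun x _ => sq_nonneg _
  exact nonneg_of_mul_nonneg_right (h0.trans h) hc |> fun h => h

/-- the entropy inequality -/
theorem ent_ineq {S : Finset G} (hS : S.Nonempty) (n : ℕ) {t : G} (ht : t ∈ S) (f : G → ℂ) :
    ‖EE S n (fun y => f (t * y)) - EE S (n + 1) f‖ ^ 2 ≤
      2 * S.card * (S.card + 1) * DD S n * EE S (n + 1) (fun x => ‖f x‖ ^ 2) := by
  set q : G → ℝ := fun x => lam t (pw S n) x with hqd
  set m : G → ℝ := fun x => pw S (n + 1) x with hmd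
  have hc : (0 : ℝ) < S.card := by exact_mod_cast hS.card_pos
  have hq : ∀ x, 0 ≤ q x := fun x => by simp only [hqd, lam_apply]; exact pw_nonneg _ _ _
  have hm : ∀ x, 0 ≤ m x := fun x => pw_nonneg _ _ _
  have hqm : ∀ x, q x ≤ S.card * m x := by
    intro x
    simp only [hqd, hmd, pw_succ_apply, lam_apply]
    rw [← mul_assoc, mul_inv_cancel₀ hc.ne', one_mul]
    exact Finset.single_le_sum (f := fun s => pw S n (s⁻¹ * x)) (fun s _ => pw_nonneg _ _ _) ht
  have e1 : EE S n (fun y => f (t * y)) - EE S (n + 1) f =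
      ∑ x ∈ S ^ (n + 1), (q x - m x) • f x := by
    rw [EE, ← pair_lam, pair_eq _ _ (lam_pw_supp S n ht), EE_eq, ← Finset.sum_sub_distrib]
    simp only [sub_smul, hqd, hmd]
  have e2 : ‖∑ x ∈ S ^ (n + 1), (q x - m x) • f x‖ ≤
      ∑ x ∈ S ^ (n + 1), |√(q x) - √(m x)| * ((√(q x) + √(m x)) * ‖f x‖) := by
    refine (norm_sum_le _ _).trans (le_of_eq (Finset.sum_congr rfl fun x _ => ?_))
    rw [norm_smul, Real.norm_eq_abs]
    have : q x - m x = (√(q x) - √(m x)) * (√(q x) + √(m x)) := by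
      have h1 := Real.sq_sqrt (hq x)
      have h2 := Real.sq_sqrt (hm x)
      nlinarith
    rw [this, abs_mul, abs_of_nonneg (a := √(q x) + √(m x)) (by positivity), mul_assoc]
  have e3 := Finset.sum_mul_sq_le_sq_mul_sq (S ^ (n + 1)) (fun x => |√(q x) - √(m x)|)
    (fun x => (√(q x) + √(m x)) * ‖f x‖)
  have e4 : ∑ x ∈ S ^ (n + 1), |√(q x) - √(m x)| ^ 2 ≤ S.card * DD S n := by
    simp only [sq_abs]
    refine le_trans ?_ (DD_ge hS n)
    exact Finset.single_le_sum
      (f := fun t => ∑ x ∈ S ^ (n + 1), (√(lam t (pw S n) x) - √(pw S (n + 1) x)) ^ 2)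
      (fun t _ => Finset.sum_nonneg fun x _ => sq_nonneg _) ht
  have e5 : ∑ x ∈ S ^ (n + 1), ((√(q x) + √(m x)) * ‖f x‖) ^ 2 ≤
      2 * (S.card + 1) * EE S (n + 1) (fun x => ‖f x‖ ^ 2) := by
    rw [EE_eq, Finset.mul_sum]
    refine Finset.sum_le_sum fun x _ => ?_
    rw [mul_pow, smul_eq_mul, ← mul_assoc]
    refine mul_le_mul_of_nonneg_right ?_ (sq_nonneg _)
    have h1 := Real.sq_sqrt (hq x)
    have h2 := Real.sq_sqrt (hm x)
    have h3 := hqm x
    have h4 := sq_nonneg (√(q x) - √(m x))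
    change _ ≤ 2 * ((S.card : ℝ) + 1) * m x
    nlinarith
  have e6 : 0 ≤ ∑ x ∈ S ^ (n + 1), ((√(q x) + √(m x)) * ‖f x‖) ^ 2 :=
    Finset.sum_nonneg fun x _ => sq_nonneg _
  have e7 : 0 ≤ (S.card : ℝ) * DD S n := mul_nonneg hc.le (DD_nonneg hS n)
  rw [e1]
  calc _ ≤ (∑ x ∈ S ^ (n + 1), |√(q x) - √(m x)| * ((√(q x) + √(m x)) * ‖f x‖)) ^ 2 :=
        pow_le_pow_left₀ (norm_nonneg _) e2 2
    _ ≤ _ := e3
    _ ≤ (S.card * DD S n) * (2 * (S.card + 1) * EE S (n + 1) (fun x => ‖f x‖ ^ 2)) :=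
        mul_le_mul e4 e5 e6 e7
    _ = _ := by ring

theorem ent_le {S : Finset G} (hS : S.Nonempty) (n : ℕ) :
    ent (pw S n) ≤ Real.log (S ^ n).card := by
  have hN : (0 : ℝ) < (S ^ n).card := by exact_mod_cast (hS.pow (n := n)).card_pos
  have h1 : ∀ x ∈ S ^ n, -(pw S n x * Real.log (pw S n x)) ≤
      pw S n x * Real.log (S ^ n).card - pw S n x + ((S ^ n).card : ℝ)⁻¹ := by
    intro x _
    have h := kl (pw S n x) ((S ^ n).card : ℝ)⁻¹ (pw_nonneg _ _ _) (by positivity)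
      fun h => absurd h (by positivity)
    rw [Real.log_inv] at h
    nlinarith [sq_nonneg (√(pw S n x) - √(((S ^ n).card : ℝ)⁻¹))]
  rw [ent_eq _ (pw_supp S n)]
  refine (Finset.sum_le_sum h1).trans (le_of_eq ?_)
  rw [Finset.sum_add_distrib, Finset.sum_sub_distrib, ← Finset.sum_mul, pw_sum hS,
    Finset.sum_const, nsmul_eq_mul, mul_inv_cancel₀ hN.ne']
  ring

theorem ent_nonneg {S : Finset G} (hS : S.Nonempty) (n : ℕ) : 0 ≤ ent (pw S n) := by
  induction n with
  | zero => simp [ent, pw]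
  | succ n ih =>
    have := DD_nonneg hS n
    rw [DD] at this
    linarith

theorem good_times {S : Finset G} (hS : S.Nonempty) {d : ℕ} (h : PG G d) (n0 : ℕ) :
    ∃ n, n0 ≤ n ∧ ((n : ℝ) + 1) * DD S n ≤ d + 1 := by
  by_contra hcon
  push Not at hcon
  obtain ⟨C, hC⟩ := h S
  have hC0 : 0 < C := by
    have := hC 0
    simp only [pow_zero, Finset.card_one, zero_add, one_pow, mul_one] at this
    omega
  have h1 : ∀ k : ℕ, ((d : ℝ) + 1) * (Real.log ((n0 + k : ℕ) + 1) - Real.log (n0 + 1)) ≤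
      ent (pw S (n0 + k)) := by
    intro k
    induction k with
    | zero => simpa using ent_nonneg hS n0
    | succ k ih =>
      have h2 := hcon (n0 + k) (Nat.le_add_right _ _)
      have hp : (0 : ℝ) < ((n0 + k : ℕ) : ℝ) + 1 := by positivity
      have h3 : Real.log (((n0 + (k + 1) : ℕ) : ℝ) + 1) - Real.log (((n0 + k : ℕ) : ℝ) + 1) ≤
          1 / (((n0 + k : ℕ) : ℝ) + 1) := by
        rw [← Real.log_div (by positivity) hp.ne']
        refine (Real.log_le_sub_one_of_pos (by positivity)).trans (le_of_eq ?_)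
        push_cast
        field_simp
        ring
      have h4 : ((d : ℝ) + 1) * (1 / (((n0 + k : ℕ) : ℝ) + 1)) ≤ DD S (n0 + k) := by
        rw [mul_one_div, div_le_iff₀ hp]
        linarith
      have h5 : ent (pw S (n0 + (k + 1))) = ent (pw S (n0 + k)) + DD S (n0 + k) := by
        rw [DD, ← add_assoc]; ring
      have h6 := mul_le_mul_of_nonneg_left h3 (show (0 : ℝ) ≤ d + 1 by positivity)
      rw [h5]
      nlinarith
  have h7 : ∀ k : ℕ, Real.log ((n0 + k : ℕ) + 1) ≤ Real.log C + (d + 1) * Real.log (n0 + 1) := by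
    intro k
    have h2 := (h1 k).trans (ent_le hS (n0 + k))
    have hN : (0 : ℝ) < (S ^ (n0 + k)).card := by exact_mod_cast (hS.pow (n := n0 + k)).card_pos
    have h3 : Real.log (S ^ (n0 + k)).card ≤ Real.log (C * ((n0 + k : ℕ) + 1) ^ d) :=
      Real.log_le_log hN (by exact_mod_cast hC (n0 + k))
    rw [Real.log_mul (by positivity) (by positivity), Real.log_pow] at h3
    nlinarith
  obtain ⟨k, hk⟩ := exists_nat_gt (Real.exp (Real.log C + (d + 1) * Real.log (n0 + 1)))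
  have h8 := h7 k
  have h9 : Real.log C + (d + 1) * Real.log (n0 + 1) < Real.log ((n0 + k : ℕ) + 1) := by
    rw [Real.lt_log_iff_exp_lt (by positivity)]
    push_cast
    have : (0 : ℝ) ≤ n0 := by positivity
    linarith
  linarith

end Pool.Agent.Gromov.W
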